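import Pool.Agent.Lib.MP_436e1a_gt.Ctx

/-! Every closed manifold is a smooth neighbourhood retract in a Euclidean space. -/

open scoped Manifold ContDiff Topology
open Set

namespace Pool.Agent.CSP

section
variable {A B F : Type} [NormedAddCommGroup A] [NormedSpace ℝ A] [FiniteDimensional ℝ A]
  [NormedAddCommGroup B] [InnerProductSpace ℝ B] [FiniteDimensional ℝ B]
  [NormedAddCommGroup F] [NormedSpace ℝ F] [CompleteSpace F]

/-- a continuous solution of a nondegenerate smooth equation is smooth -/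
theorem amb_imp {Φ : B × A → F} {ρ : B → A} {z : B} (hΦ : ContDiffAt ℝ ∞ Φ (z, ρ z))
    (hi : (fderiv ℝ Φ (z, ρ z) ∘L .inr ℝ B A).IsInvertible) (hc : ContinuousAt ρ z)
    (h0 : ∀ᶠ y in 𝓝 z, Φ (y, ρ y) = 0) : ContDiffAt ℝ ∞ ρ z := by
  have := FiniteDimensional.complete ℝ A
  have := FiniteDimensional.complete ℝ B
  refine (hΦ.contDiffAt_implicitFunction (by simp) hi).congr_of_eventuallyEq ?_
  filter_upwards [h0, (continuousAt_id.prodMk hc).eventually
    (hΦ.eventually_apply_eq_iff_implicitFunction (by simp) hi)] with y h1 h2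
  exact (h2.1 (h1.trans h0.self_of_nhds.symm)).symm

theorem amb_loc {h : A → B} {O : Set A} (hO : IsOpen O) (hh : ContDiffOn ℝ ∞ h O) {u₀ : A}
    (hu : u₀ ∈ O) (hi : Function.Injective (fderiv ℝ h u₀)) {ρ : B → A}
    (hc : ContinuousAt ρ (h u₀)) (hm : ∀ᶠ z in 𝓝 (h u₀), ∀ u, ‖z - h (ρ z)‖ ≤ ‖z - h u‖)
    (hr : ∀ᶠ u in 𝓝 u₀, ρ (h u) = u) :
    ∀ᶠ z in 𝓝 (h u₀), ContDiffAt ℝ ∞ ρ z ∧ Function.Surjective (fderiv ℝ ρ z) := by
  have := FiniteDimensional.complete ℝ A
  have h0 : ρ (h u₀) = u₀ := hr.self_of_nhds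
  have hs : ∀ u ∈ O, ContDiffAt ℝ ∞ h u := fun u hu => hh.contDiffAt (hO.mem_nhds hu)
  have hd : ∀ u ∈ O, HasFDerivAt h (fderiv ℝ h u) u := fun u hu =>
    ((hs u hu).differentiableAt (by simp)).hasFDerivAt
  have hs' : ∀ u ∈ O, ContDiffAt ℝ ∞ (fderiv ℝ h) u := fun u hu =>
    (hs u hu).fderiv_right (by simp)
  let Φ : B × A → A →L[ℝ] ℝ := fun p => (innerSL ℝ (p.1 - h p.2)).comp (fderiv ℝ h p.2)
  have hΦ : ∀ p : B × A, p.2 ∈ O → ContDiffAt ℝ ∞ Φ p := fun p hp =>
    ((innerSL ℝ : B →L[ℝ] B →L[ℝ] ℝ).contDiff.contDiffAt.comp p (contDiffAt_fst.sub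
      ((hs _ hp).comp p contDiffAt_snd))).clm_comp ((hs' _ hp).comp p contDiffAt_snd)
  have h1 : ∀ᶠ z in 𝓝 (h u₀), ρ z ∈ O := hc.eventually_mem (hO.mem_nhds (h0.symm ▸ hu))
  have h2 : ∀ᶠ z in 𝓝 (h u₀), Φ (z, ρ z) = 0 := by
    filter_upwards [h1, hm] with z hz hm
    have e := IsLocalMin.hasFDerivAt_eq_zero (f := fun u => ‖z - h u‖ ^ 2)
      (Filter.Eventually.of_forall fun u => pow_le_pow_left₀ (norm_nonneg _) (hm u) 2)
      ((hd _ hz).const_sub z).norm_sq
    ext v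
    have e1 := DFunLike.congr_fun e v
    simp [Φ] at e1 ⊢
    linarith
  have h3 : (fderiv ℝ Φ (h u₀, u₀) ∘L .inr ℝ B A).IsInvertible := by
    have e := (((hΦ (h u₀, u₀) hu).differentiableAt (by simp)).hasFDerivAt.comp u₀
      (hasFDerivAt_prodMk_right (h u₀) u₀)).unique
      (((innerSL ℝ : B →L[ℝ] B →L[ℝ] ℝ).hasFDerivAt.comp u₀ ((hd _ hu).const_sub (h u₀))).clm_comp
        ((hs' _ hu).differentiableAt (by simp)).hasFDerivAt)
    have inj : Function.Injective (fderiv ℝ Φ (h u₀, u₀) ∘L .inr ℝ B A) :=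
      (injective_iff_map_eq_zero _).2 fun v hv => hi (by
        rw [e] at hv
        have e1 := DFunLike.congr_fun hv v
        simp at e1
        exact (inner_self_eq_zero (𝕜 := ℝ).1 e1).trans (map_zero _).symm)
    exact ⟨(LinearMap.linearEquivOfInjective (fderiv ℝ Φ (h u₀, u₀) ∘L .inr ℝ B A).toLinearMap inj
      (LinearMap.toContinuousLinearMap.finrank_eq.symm.trans
        Subspace.dual_finrank_eq).symm).toContinuousLinearEquiv, rfl⟩
  have h4 : ContDiffAt ℝ ∞ ρ (h u₀) := amb_imp (hΦ _ h1.self_of_nhds) (h0.symm ▸ h3) hc h2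
  have h5 : ContinuousAt (fun z => fderiv ℝ Φ (z, ρ z) ∘L .inr ℝ B A) (h u₀) :=
    (ContinuousAt.comp (f := fun z => (z, ρ z)) ((hΦ _ h1.self_of_nhds).continuousAt_fderiv
      (by simp)) (continuousAt_id.prodMk hc)).clm_comp continuousAt_const
  have h6 : fderiv ℝ ρ (h u₀) ∘L fderiv ℝ h u₀ = 1 :=
    ((h4.differentiableAt (by simp)).hasFDerivAt.comp u₀ (hd _ hu)).unique
      ((hasFDerivAt_id u₀).congr_of_eventuallyEq hr)
  have h7 : ContinuousAt (fun z => fderiv ℝ ρ z ∘L fderiv ℝ h u₀) (h u₀) :=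
    (h4.continuousAt_fderiv (by simp)).clm_comp continuousAt_const
  filter_upwards [h1, h2.eventually_nhds, (h4.of_le (m := 1) (by simp)).eventually (by simp),
    h5.eventually_mem (ContinuousLinearEquiv.isOpen.mem_nhds (h0.symm ▸ h3)),
    h7.eventually_mem (Units.isOpen.mem_nhds (h6.symm ▸ isUnit_one))] with z a1 a2 a3 a4 a5
  exact ⟨amb_imp (hΦ _ a1) a4 a3.continuousAt a2, Function.Surjective.of_comp
    (ContinuousLinearMap.isUnit_iff_bijective.1 a5).2⟩

end

/-- the nearest point map of an embedding -/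
theorem exists_amb (M : Mfd) : Nonempty (Amb M) := by
  obtain ⟨N, ι, h1, h2, h3⟩ := exists_embedding_euclidean_of_compact (I := 𝓡 5) (M := M)
  choose r _ hr using fun z : E N => isCompact_univ.exists_isMinOn (f := fun x => ‖z - ι x‖)
    univ_nonempty (continuous_const.sub h1.continuous).norm.continuousOn
  replace hr : ∀ z x, ‖z - ι (r z)‖ ≤ ‖z - ι x‖ := fun z x => hr z (mem_univ x)
  have h4 : ∀ x, r (ι x) = x := fun x =>
    h2.injective (sub_eq_zero.1 (norm_le_zero_iff.1 (by simpa using hr (ι x) x))).symm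
  refine ⟨⟨N, ι, r, interior {z | ContMDiffAt (𝓡 N) (𝓡 5) ∞ r z ∧
      Function.Surjective (mfderiv (𝓡 N) (𝓡 5) r z)}, h1, isOpen_interior,
    fun x => mem_interior_iff_mem_nhds.2 ?_, fun z hz => (interior_subset hz).1.contMDiffWithinAt,
    h4, fun z hz => (interior_subset hz).2⟩⟩
  have h5 : Filter.Tendsto r (𝓝 (ι x)) (𝓝 x) := by
    rw [h2.isEmbedding.tendsto_nhds_iff, tendsto_iff_norm_sub_tendsto_zero]
    refine squeeze_zero (g := fun z => 2 * ‖z - ι x‖) (fun _ => norm_nonneg _) (fun z => ?_)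
      (Continuous.tendsto' (by fun_prop) _ _ (by simp))
    have := norm_sub_le_norm_sub_add_norm_sub (ι (r z)) z (ι x)
    rw [norm_sub_rev _ z] at this
    have := hr z x
    change ‖ι (r z) - ι x‖ ≤ _
    linarith
  let e := chartAt (E 5) x
  have hx : x ∈ e.source := mem_chart_source _ x
  have hu : e x ∈ e.target := e.map_source hx
  have he : e.MDifferentiable (𝓡 5) (𝓡 5) := mdifferentiable_chart x
  have hs : ContMDiffOn (𝓡 5) (𝓡 5) ∞ e.symm e.target := contMDiffOn_chart_symm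
  have e0 : (ι ∘ e.symm) (e x) = ι x := congrArg ι (e.left_inv hx)
  have h6 : ∀ᶠ z in 𝓝 (ι x), r z ∈ e.source := h5.eventually_mem (e.open_source.mem_nhds hx)
  have h7 := amb_loc (h := ι ∘ e.symm) (ρ := e ∘ r) e.open_target
    (h1.comp_contMDiffOn hs).contDiffOn hu (by
      rw [← mfderiv_eq_fderiv, mfderiv_comp _ (h1.mdifferentiableAt (by simp))
        (he.mdifferentiableAt_symm hu)]
      exact (h3 _).comp (he.symm.mfderiv_injective hu)) (by
      rw [e0, ContinuousAt, Function.comp_apply, h4]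
      exact (e.continuousAt hx).tendsto.comp h5) (by
      rw [e0]
      filter_upwards [h6] with z hz u
      simpa only [Function.comp_apply, e.left_inv hz] using hr z _) (by
      filter_upwards [e.open_target.mem_nhds hu] with u hu
      simp only [Function.comp_apply, h4, e.right_inv hu])
  rw [e0] at h7
  filter_upwards [h7, h6.eventually_nhds] with z a1 a2
  have a3 : r =ᶠ[𝓝 z] e.symm ∘ (e ∘ r) := a2.mono fun y hy => (e.left_inv hy).symm
  have a4 : (e ∘ r) z ∈ e.target := e.map_source a2.self_of_nhds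
  refine ⟨((hs.contMDiffAt (e.open_target.mem_nhds a4)).comp z
    a1.1.contMDiffAt).congr_of_eventuallyEq a3, ?_⟩
  rw [a3.mfderiv_eq, mfderiv_comp _ (he.mdifferentiableAt_symm a4)
    (a1.1.differentiableAt (by simp)).mdifferentiableAt, mfderiv_eq_fderiv]
  exact (he.symm.mfderiv_surjective a4).comp a1.2

end Pool.Agent.CSP
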