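import Pool.Agent.Lib.MP_436e1a_gt.B.Sm

/-! Lifting to the covering space; properness of the action. -/

open scoped Manifold ContDiff Topology
open Set

namespace Pool.Agent.CSP

namespace Ctx

variable (c : Ctx) {V : Type} [TopologicalSpace V] {O : Set V}

/-- homotopy lifting (`IsCoveringMap.liftHomotopy` on the subtype `O`; clamp the time with
`projIcc`, choose any value off `O`); constant tracks lift to constant tracks -/
theorem lift_htp {h : ℝ × V → c.M} (hh : ContinuousOn h (Icc 0 1 ×ˢ O)) {f : V → c.Y}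
    (hf : ContinuousOn f O) (h0 : ∀ v ∈ O, c.q (f v) = h (0, v)) :
    ∃ H : ℝ × V → c.Y, ContinuousOn H (Icc 0 1 ×ˢ O) ∧ (∀ v ∈ O, H (0, v) = f v) ∧
      (∀ p ∈ Icc (0 : ℝ) 1 ×ˢ O, c.q (H p) = h p) ∧
      ∀ v ∈ O, (∀ s ∈ Icc (0 : ℝ) 1, h (s, v) = h (0, v)) → ∀ s ∈ Icc (0 : ℝ) 1, H (s, v) = f v := by
  classical
  let h' : C(unitInterval × O, c.M) := ⟨fun p => h (p.1, p.2), hh.comp_continuous (by fun_prop)
    fun p => ⟨p.1.2, p.2.2⟩⟩
  let f' : C(O, c.Y) := ⟨fun v => f v, hf.comp_continuous continuous_subtype_val fun v => v.2⟩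
  have h0' : ∀ a, h' (0, a) = c.q (f' a) := fun a => (h0 a a.2).symm
  let L := c.isCoveringMap_q.liftHomotopy h' f' h0'
  have hL : ∀ p, c.q (L p) = h' p := congrFun (c.isCoveringMap_q.liftHomotopy_lifts h' f' h0')
  have hL0 : ∀ a, L (0, a) = f' a := c.isCoveringMap_q.liftHomotopy_zero h' f' h0'
  refine ⟨fun p => if hp : p.2 ∈ O then L (projIcc 0 1 zero_le_one p.1, ⟨p.2, hp⟩) else f p.2,
    ?_, fun v hv => ?_, fun p hp => ?_, fun v hv hs s hs' => ?_⟩
  · rw [continuousOn_iff_continuous_domRestrict]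
    have h1 : Continuous fun p : (Icc (0 : ℝ) 1 ×ˢ O : Set (ℝ × V)) =>
        L (projIcc 0 1 zero_le_one p.1.1, ⟨p.1.2, p.2.2⟩) :=
      L.continuous.comp ((continuous_projIcc.comp (continuous_fst.comp continuous_subtype_val)).prodMk
        ((continuous_snd.comp continuous_subtype_val).subtype_mk _))
    exact h1.congr fun p => by simp only [domRestrict_apply, dif_pos p.2.2]
  · simp only [dif_pos hv, projIcc_left]
    exact hL0 ⟨v, hv⟩
  · simp only [dif_pos hp.2, projIcc_of_mem _ hp.1]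
    exact hL _
  · simp only [dif_pos hv, projIcc_of_mem _ hs']
    refine (c.isCoveringMap_q.const_of_comp (g := fun t : unitInterval => L (t, ⟨v, hv⟩))
      (by fun_prop) (fun a a' => ?_) ⟨s, hs'⟩ 0).trans (hL0 ⟨v, hv⟩)
    rw [hL, hL]
    exact (hs a a.2).trans (hs a' a'.2).symm

/-- push a map by a small ambient vector field and lift -/
theorem lift_push {f : V → c.Y} (hf : ContinuousOn f O) {w : V → E c.N} (hw : ContinuousOn w O)
    (hU : ∀ v ∈ O, ∀ s ∈ Icc (0 : ℝ) 1, c.am f v + s • w v ∈ c.U) :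
    ∃ H : ℝ × V → c.Y, ContinuousOn H (Icc 0 1 ×ˢ O) ∧ (∀ v ∈ O, H (0, v) = f v) ∧
      (∀ p ∈ Icc (0 : ℝ) 1 ×ˢ O, c.am H p = c.ρ (c.am f p.2 + p.1 • w p.2)) ∧
      ∀ v ∈ O, w v = 0 → ∀ s ∈ Icc (0 : ℝ) 1, H (s, v) = f v := by
  have h1 : ContinuousOn (fun p : ℝ × V => c.r (c.am f p.2 + p.1 • w p.2)) (Icc 0 1 ×ˢ O) :=
    c.continuousOn_r.comp (((c.continuousOn_am hf).comp continuousOn_snd fun _ hp => hp.2).add
      (continuousOn_fst.smul (hw.comp continuousOn_snd fun _ hp => hp.2)))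
      fun p hp => hU p.2 hp.2 p.1 hp.1
  obtain ⟨H, a1, a2, a3, a4⟩ := c.lift_htp h1 hf fun v _ => by
    simp only [zero_smul, add_zero]
    exact (c.A.r_ι _).symm
  refine ⟨H, a1, a2, fun p hp => congrArg c.ι (a3 p hp), fun v hv hw0 => a4 v hv fun s _ => ?_⟩
  simp only [hw0, smul_zero]

/-- uniqueness of lifts (`IsCoveringMap.eqOn_of_comp_eqOn`) -/
theorem lift_unique (hO : IsPreconnected O) {f g : V → c.Y} (hf : ContinuousOn f O)
    (hg : ContinuousOn g O) (h : ∀ v ∈ O, c.q (f v) = c.q (g v)) {v₀ : V} (h0 : v₀ ∈ O)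
    (he : f v₀ = g v₀) : EqOn f g O := by
  exact c.isCoveringMap_q.eqOn_of_comp_eqOn hO hf hg (fun v hv => h v hv) h0 he

/-- two lifts that agree at a point agree near it -/
theorem lift_eventually {f g : V → c.Y} {v₀ : V} (hf : ContinuousWithinAt f O v₀)
    (hg : ContinuousWithinAt g O v₀) (h : ∀ᶠ v in 𝓝[O] v₀, c.q (f v) = c.q (g v))
    (he : f v₀ = g v₀) : ∀ᶠ v in 𝓝[O] v₀, f v = g v := by
  obtain ⟨W, hW, hi⟩ := c.q_locInj (f v₀)
  filter_upwards [h, hf hW, hg (he ▸ hW)] with v h1 h2 h3 using hi h2 h3 h1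

/-- lifting on a simply connected open set
(`IsCoveringMap.existsUnique_continuousMap_lifts` on the subtype) -/
theorem lift_sc [LocallyPathConnectedSpace V] (hO : IsOpen O) [SimplyConnectedSpace O] {φ : V → c.M}
    (hφ : ContinuousOn φ O) {v₀ : V} (h0 : v₀ ∈ O) {y₀ : c.Y} (hy : c.q y₀ = φ v₀) :
    ∃ f : V → c.Y, ContinuousOn f O ∧ f v₀ = y₀ ∧ ∀ v ∈ O, c.q (f v) = φ v := by
  classical
  have := hO.locallyPathConnectedSpace
  obtain ⟨F, ⟨h1, h2⟩, -⟩ := c.isCoveringMap_q.existsUnique_continuousMap_lifts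
    (⟨fun v : O => φ v, hφ.comp_continuous continuous_subtype_val fun v => v.2⟩ : C(O, c.M))
    ⟨v₀, h0⟩ y₀ hy
  refine ⟨fun v => if hv : v ∈ O then F ⟨v, hv⟩ else y₀, ?_, ?_, fun v hv => ?_⟩
  · rw [continuousOn_iff_continuous_domRestrict]
    exact F.continuous.congr fun v => by simp only [domRestrict_apply, dif_pos v.2]
  · simp only [dif_pos h0, h1]
  · simp only [dif_pos hv]
    exact congrFun h2 ⟨v, hv⟩

/-- Proper discontinuity. Sketch. For `y, y'` there are neighbourhoods `W, W'` such that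
`W ∩ g • W' ≠ ∅` for at most one `g` (different fibres: separate in `M`; same fibre: translate a
neighbourhood given by `c.C.cov.disjoint`). Compactness of `K ×ˢ K'`. -/
theorem finite_meet {K K' : Set c.Y} (hK : IsCompact K) (hK' : IsCompact K') :
    {g : c.G | ∃ y ∈ K, ∃ y' ∈ K', y = g • y'}.Finite := by
  have key : {g : c.G | ∃ z ∈ K ×ˢ K', z.1 = g • z.2}.Finite := by
    refine (hK.prod hK').induction_on (p := fun S => {g : c.G | ∃ z ∈ S, z.1 = g • z.2}.Finite)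
      (by simp) (fun s t hst ht => ht.subset fun g ⟨z, h1, h2⟩ => ⟨z, hst h1, h2⟩)
      (fun s t hs ht => (hs.union ht).subset fun g ⟨z, h1, h2⟩ =>
        h1.imp (fun h => ⟨z, h, h2⟩) fun h => ⟨z, h, h2⟩) ?_
    rintro ⟨y, y'⟩ -
    by_cases hq : c.q y = c.q y'
    · obtain ⟨g₀, hg⟩ := c.q_eq_iff.1 hq
      obtain ⟨W, hW, hd⟩ := c.C.cov.disjoint y
      have hW' : (fun z => g₀ • z) ⁻¹' W ∈ 𝓝 y' :=
        (c.continuous_smul g₀).continuousAt.preimage_mem_nhds (hg ▸ hW)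
      refine ⟨_, mem_nhdsWithin_of_mem_nhds (prod_mem_nhds hW hW'),
        (finite_singleton g₀).subset fun g ⟨z, h1, h2⟩ => ?_⟩
      refine mul_inv_eq_one.1 (hd (g * g₀⁻¹) ⟨z.1, ⟨g₀ • z.2, h1.2, ?_⟩, h1.1⟩)
      simp only [h2, mul_smul, inv_smul_smul]
    · obtain ⟨A, B, hA, hB, h1, h2, hd⟩ := t2_separation hq
      refine ⟨_, mem_nhdsWithin_of_mem_nhds (prod_mem_nhds
        (c.continuous_q.continuousAt.preimage_mem_nhds (hA.mem_nhds h1))
        (c.continuous_q.continuousAt.preimage_mem_nhds (hB.mem_nhds h2))),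
        finite_empty.subset fun g ⟨z, h3, h4⟩ => ?_⟩
      have h5 : c.q z.1 = c.q z.2 := by rw [h4, c.q_smul]
      exact disjoint_left.1 hd h3.1 (h5 ▸ h3.2)
  exact key.subset fun g ⟨y, h1, y', h2, h3⟩ => ⟨(y, y'), ⟨h1, h2⟩, h3⟩

/-- a compact fundamental set -/
theorem exists_compact_lift {Z : Set c.M} (hZ : IsCompact Z) :
    ∃ K : Set c.Y, IsCompact K ∧ c.q '' K = Z := by
  have key : ∃ K : Set c.Y, IsCompact K ∧ Z ⊆ c.q '' K := by
    refine hZ.induction_on (p := fun S => ∃ K : Set c.Y, IsCompact K ∧ S ⊆ c.q '' K)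
      ⟨∅, isCompact_empty, empty_subset _⟩ (fun s t hst ⟨K, h1, h2⟩ => ⟨K, h1, hst.trans h2⟩)
      (fun s t ⟨K, h1, h2⟩ ⟨K', h3, h4⟩ =>
        ⟨K ∪ K', h1.union h3, by rw [image_union]; exact union_subset_union h2 h4⟩) fun x _ => ?_
    obtain ⟨y, rfl⟩ := c.surjective_q x
    have hl := c.isCoveringMap_q.isLocalHomeomorph
    obtain ⟨N, h1, h2, h3⟩ := local_compact_nhds
      ((hl.localInverseAt y).open_source.mem_nhds hl.apply_self_mem_localInverseAt_source)
    exact ⟨N, mem_nhdsWithin_of_mem_nhds h1, _,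
      h3.image_of_continuousOn ((hl.localInverseAt y).continuousOn.mono h2),
      fun z hz => ⟨_, mem_image_of_mem _ hz, hl.apply_localInverseAt_of_mem (h2 hz)⟩⟩
  obtain ⟨K, h1, h2⟩ := key
  refine ⟨K ∩ c.q ⁻¹' Z, h1.inter_right (hZ.isClosed.preimage c.continuous_q), ?_⟩
  rw [image_inter_preimage, inter_eq_right.2 h2]

/-- local sections -/
theorem exists_section (y : c.Y) : ∃ (W : Set c.M) (σ : c.M → c.Y), IsOpen W ∧ c.q y ∈ W ∧
    ContinuousOn σ W ∧ σ (c.q y) = y ∧ ∀ x ∈ W, c.q (σ x) = x := by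
  have hl := c.isCoveringMap_q.isLocalHomeomorph
  exact ⟨_, hl.localInverseAt y, (hl.localInverseAt y).open_source,
    hl.apply_self_mem_localInverseAt_source, (hl.localInverseAt y).continuousOn,
    hl.localInverseAt_apply_self, fun _ hx => hl.apply_localInverseAt_of_mem hx⟩

end Ctx

end Pool.Agent.CSP
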