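import Pool.Agent.Lib.MP_436e1a_gt.B.LnkL
import Pool.Agent.Lib.MP_436e1a_gt.B.Lift

/-! The group of diffeomorphisms with lifts and its action on links. -/

open scoped Manifold ContDiff Topology RealInnerProductSpace
open Set

namespace Pool.Agent.CSP

namespace Ctx

variable {c : Ctx} {ι : Type}

theorem Aut.exists_refl (c : Ctx) : ∃ φ : c.Aut, (∀ y, φ.up y = y) ∧ ∀ x, φ.dn x = x :=
  ⟨⟨id, id, continuous_id, fun _ _ => rfl, fun _ => rfl, emb_id _, Function.surjective_id⟩,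
    fun _ => rfl, fun _ => rfl⟩

theorem Aut.exists_trans (φ ψ : c.Aut) :
    ∃ χ : c.Aut, (∀ y, χ.up y = ψ.up (φ.up y)) ∧ ∀ x, χ.dn x = ψ.dn (φ.dn x) :=
  ⟨⟨ψ.up ∘ φ.up, ψ.dn ∘ φ.dn, ψ.cont.comp φ.cont,
    fun g y => (congrArg ψ.up (φ.equi g y)).trans (ψ.equi g _),
    fun y => (ψ.comm _).trans (congrArg ψ.dn (φ.comm y)),
    one_mul (1 : ℝ) ▸ ψ.emb.comp φ.emb isOpen_univ isOpen_univ (mapsTo_univ _ _),
    ψ.surj.comp φ.surj⟩, fun _ => rfl, fun _ => rfl⟩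

theorem autl_inj (φ : c.Aut) {y y' : c.Y} (h : c.q (φ.up y) = c.q (φ.up y')) : c.q y = c.q y' :=
  φ.emb.2.1 trivial trivial ((φ.comm y).symm.trans (h.trans (φ.comm y')))

theorem Aut.up_bij (φ : c.Aut) : Function.Bijective φ.up := by
  refine ⟨fun y y' h => ?_, fun y => ?_⟩
  · obtain ⟨g, rfl⟩ := c.q_eq_iff.1 (autl_inj φ (congrArg c.q h))
    rw [c.smul_eq_self ((φ.equi g y').symm.trans h), one_smul]
  · obtain ⟨x, hx⟩ := φ.surj (c.q y)
    obtain ⟨z, rfl⟩ := c.surjective_q x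
    obtain ⟨g, rfl⟩ := c.q_eq_iff.1 (hx.symm.trans (φ.comm z).symm)
    exact ⟨_, φ.equi g z⟩

theorem Aut.exists_symm (φ : c.Aut) : ∃ ψ : c.Aut, (∀ y, ψ.up (φ.up y) = y) ∧
    (∀ y, φ.up (ψ.up y) = y) ∧ (∀ x, ψ.dn (φ.dn x) = x) ∧ ∀ x, φ.dn (ψ.dn x) = x := by
  obtain ⟨k, h1, h2, h3⟩ := φ.emb.exists_inv isOpen_univ
  rw [image_univ, φ.surj.range_eq] at h1 h3
  let u := Equiv.ofBijective _ φ.up_bij
  have hk : Continuous k := continuousOn_univ.1 h1.continuousOn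
  have h4 : ∀ y, k (c.q (φ.up y)) = c.q y := fun y => by rw [φ.comm, h2 _ trivial]
  refine ⟨⟨u.symm, k, continuous_iff_continuousAt.2 (u.surjective.forall.2 fun y => ?_),
    fun g => u.surjective.forall.2 fun y => ?_, u.surjective.forall.2 fun y => ?_, h1,
    fun x => ⟨_, h2 x trivial⟩⟩, u.symm_apply_apply, u.apply_symm_apply, fun x => h2 x trivial,
    fun x => (h3 x trivial).2⟩
  · obtain ⟨W, σ, hW, hy, hσ, e, e'⟩ := c.exists_section y
    have h5 : ContinuousAt (fun z => k (c.q z)) (φ.up y) := (hk.comp c.continuous_q).continuousAt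
    have h6 : W ∈ 𝓝 (k (c.q (φ.up y))) := hW.mem_nhds (h4 y ▸ hy)
    have h7 := (hσ.continuousAt h6).comp (f := fun z => k (c.q z)) h5
    have h8 := c.lift_eventually (O := univ) (g := id)
      (φ.cont.continuousAt.comp h7).continuousWithinAt continuousWithinAt_id
      (Filter.mem_of_superset (nhdsWithin_le_nhds (h5 h6)) fun z hz =>
        (φ.comm _).trans ((congrArg φ.dn (e' _ hz)).trans (h3 _ trivial).2))
      (congrArg φ.up ((congrArg σ (h4 y)).trans e))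
    rw [nhdsWithin_univ] at h8
    exact h7.congr (h8.mono fun z hz => u.eq_symm_apply.2 hz)
  · rw [u.symm_apply_apply]
    exact u.symm_apply_eq.2 (φ.equi g y).symm
  · rw [u.symm_apply_apply]
    exact (h4 y).symm

/-- the ambient version of a map of the manifold -/
def amb (c : Ctx) (φ : c.M → c.M) (z : E c.N) : E c.N := c.ι (φ (c.r z))

/-- the ambient differential of an automorphism -/
noncomputable def Aut.D (φ : c.Aut) (x : c.M) : E c.N →L[ℝ] E c.N := fderiv ℝ (c.amb φ.dn) (c.ι x)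

theorem Aut.contDiffOn (φ : c.Aut) : ContDiffOn ℝ ∞ (c.amb φ.dn) c.U :=
  contMDiffOn_iff_contDiffOn.1 (c.A.ι_smooth.comp_contMDiffOn
    ((contMDiffOn_univ.1 φ.emb.1).comp_contMDiffOn c.A.r_smooth))

theorem autl_diff (φ : c.Aut) (x : c.M) : DifferentiableAt ℝ (c.amb φ.dn) (c.ι x) :=
  (φ.contDiffOn.contDiffAt (c.A.U_open.mem_nhds (c.A.mem_U x))).differentiableAt (by simp)

theorem autl_D (φ : c.Aut) (x : c.M) : (φ.D x).comp (c.dι x) =
    (c.dι (φ.dn x)).comp (show E 5 →L[ℝ] E 5 from mfderiv (𝓡 5) (𝓡 5) φ.dn x) := by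
  have h1 := mfderiv_comp x (autl_diff φ x).mdifferentiableAt
    (c.A.ι_smooth.mdifferentiableAt (by simp))
  have h2 := mfderiv_comp x (c.A.ι_smooth.mdifferentiableAt (by simp))
    ((contMDiffOn_univ.1 φ.emb.1).mdifferentiableAt (by simp))
  rw [mfderiv_eq_fderiv, show c.amb φ.dn ∘ c.A.ι = c.A.ι ∘ φ.dn from
    funext fun y => congrArg (fun z => c.ι (φ.dn z)) (c.A.r_ι y)] at h1
  exact h1.symm.trans h2

theorem Aut.sgn (φ : c.Aut) {x : c.M} {A : E 5 →L[ℝ] E c.N} {ε : ℤˣ} (h : c.Sgn x A ε) :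
    c.Sgn (φ.dn x) ((φ.D x).comp A) ε := by
  obtain ⟨B, rfl, h⟩ := h
  refine ⟨_, by rw [← ContinuousLinearMap.comp_assoc, autl_D, ContinuousLinearMap.comp_assoc], ?_⟩
  have h1 := mul_pos (φ.emb.2.2 x trivial) h
  rw [one_mul, mul_left_comm] at h1
  exact h1.trans_eq (congrArg _ (LinearMap.det_comp _ _).symm)

theorem Aut.D_inj (φ : c.Aut) {x : c.M} {w : E c.N} (hw : c.P x w = w) (h0 : φ.D x w = 0) :
    w = 0 := by
  obtain ⟨u, rfl⟩ := c.P_eq_self_iff.1 hw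
  have h : c.Sgn x (c.dι x) 1 := ⟨.id ℝ _, rfl, by simp [ContinuousLinearMap.det]⟩
  rw [(φ.sgn h).inj (h0.trans (map_zero _).symm : _ = (φ.D x).comp (c.dι x) 0), map_zero]

section
variable {V : Type} [NormedAddCommGroup V] [NormedSpace ℝ V] {f : V → c.Y} {O K : Set V}

theorem Aut.am (φ : c.Aut) (f : V → c.Y) :
    c.am (fun v => φ.up (f v)) = fun v => c.amb φ.dn (c.am f v) :=
  funext fun _ => congrArg c.ι ((φ.comm _).trans (congrArg φ.dn (c.A.r_ι _).symm))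

theorem Aut.fderiv_am (φ : c.Aut) {v : V} (h : DifferentiableAt ℝ (c.am f) v) :
    fderiv ℝ (c.am fun v => φ.up (f v)) v = (φ.D (c.q (f v))).comp (fderiv ℝ (c.am f) v) := by
  rw [φ.am]
  exact fderiv_comp v (autl_diff φ _) h

theorem SmOn.aut (h : c.SmOn f O) (φ : c.Aut) : c.SmOn (fun v => φ.up (f v)) O :=
  ⟨φ.cont.comp_continuousOn h.1, φ.am f ▸ φ.contDiffOn.comp h.2 fun v _ => c.am_mem_U f v⟩

theorem SmNear.aut (h : c.SmNear f K) (φ : c.Aut) : c.SmNear (fun v => φ.up (f v)) K :=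
  h.imp fun _ h => ⟨h.1, h.2.1, h.2.2.aut φ⟩

end

theorem Imm.aut {a : E 3 → c.Y} (hi : c.Imm a) (ha : c.SmNear a S2) (φ : c.Aut) :
    c.Imm fun x => φ.up (a x) := fun x hx v hv h => by
  rw [φ.fderiv_am (ha.differentiableAt hx)] at h
  exact hi x hx v hv (φ.D_inj (P_fderiv_am (ha.differentiableAt hx) v) h)

theorem Link.aut {L : ι → E 3 → c.Y} (h : c.Link L) (φ : c.Aut) :
    c.Link fun i x => φ.up (L i x) :=
  ⟨fun i => (h.sm i).aut φ, fun i => (h.imm i).aut (h.sm i) φ,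
    fun i j x hx y hy e => h.inj i j x hx y hy (autl_inj φ e)⟩

theorem Cross.aut {f g : ℝ × E 3 → c.Y} {ε : ℤˣ} {t : ℝ} {x y : E 3} (h : c.Cross f g ε t x y)
    (hf : DifferentiableAt ℝ (c.am f) (t, x)) (hg : DifferentiableAt ℝ (c.am g) (t, y))
    (φ : c.Aut) : c.Cross (fun p => φ.up (f p)) (fun p => φ.up (g p)) ε t x y := by
  obtain ⟨e, v₁, v₂, w₁, w₂, hv, hw, h⟩ := h
  refine ⟨congrArg φ.up e, v₁, v₂, w₁, w₂, hv, hw, ?_⟩
  convert φ.sgn h using 1
  · exact φ.comm _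
  · ext1 u
    simp [crossFr, fr, φ.fderiv_am hf, φ.fderiv_am hg, ← e, Fin.sum_univ_succ]

theorem StepFam.aut {F : ι → ℝ × E 3 → c.Y} {δ : Dat ι c.G} (h : c.StepFam F δ) (φ : c.Aut) :
    c.StepFam (fun i p => φ.up (F i p)) δ := by
  obtain ⟨t, ht, x, hx, y, hy, h1, h2, h3⟩ := h.one
  have ht' := Ioo_subset_Icc_self ht
  refine ⟨fun i => (h.fam i).aut φ, fun i s hs => (h.reg i s hs).aut ((h.fam i).slice hs) φ,
    t, ht, x, hx, y, hy, h1, ?_, fun s hs k l a ha b hb e => h3 s hs k l a ha b hb (autl_inj φ e)⟩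
  simpa only [φ.equi] using h2.aut ((h.fam _).differentiableAt ⟨ht', hx⟩)
    (((h.fam _).smul _).differentiableAt ⟨ht', hy⟩) φ

theorem FL.aut {h : ι → E 5 → c.Y} (hh : c.FL h) (φ : c.Aut) : c.FL fun i v => φ.up (h i v) :=
  ⟨fun i => (hh.sm i).aut φ, fun i v hv => by
    rw [φ.fderiv_am ((hh.sm i).differentiableAt hv), φ.comm]
    exact φ.sgn (hh.sgn i v hv), fun i j x hx y hy e => hh.inj i j x hx y hy (autl_inj φ e)⟩

variable {L L' L'' : ι → E 3 → c.Y}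

theorem Eqv.of_eq (h : ∀ i, ∀ x ∈ S2, L i x = L' i x) : c.Eqv L L' :=
  (Aut.exists_refl c).imp fun _ e i x hx => (e.1 _).trans (h i x hx)

theorem Eqv.refl (L : ι → E 3 → c.Y) : c.Eqv L L := Eqv.of_eq fun _ _ _ => rfl

theorem Eqv.symm (h : c.Eqv L L') : c.Eqv L' L :=
  let ⟨φ, h⟩ := h
  φ.exists_symm.imp fun _ e i x hx => h i x hx ▸ e.1 _

theorem Eqv.trans (h : c.Eqv L L') (h' : c.Eqv L' L'') : c.Eqv L L'' :=
  let ⟨φ, h⟩ := h
  let ⟨ψ, h'⟩ := h'
  (φ.exists_trans ψ).imp fun _ e i x hx => by rw [e.1, h i x hx, h' i x hx]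

theorem Step.eqv_left {δ : Dat ι c.G} (h : c.Eqv L L') (h' : c.Step L' δ L'') : c.Step L δ L'' :=
  h'.imp fun _ e => ⟨e.1, h.trans e.2.1, e.2.2⟩

theorem Step.eqv_right {δ : Dat ι c.G} (h : c.Step L δ L') (h' : c.Eqv L' L'') :
    c.Step L δ L'' :=
  h.imp fun _ e => ⟨e.1, e.2.1, e.2.2.trans h'⟩

theorem Chain.eqv_left {l : List (Dat ι c.G)} (h : c.Eqv L L') (h' : c.Chain L' l L'') :
    c.Chain L l L'' := by
  cases h' with
  | nil e => exact .nil (h.trans e)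
  | cons e e' => exact .cons (e.eqv_left h) e'

theorem Chain.eqv_right {l : List (Dat ι c.G)} (h : c.Chain L l L') (h' : c.Eqv L' L'') :
    c.Chain L l L'' := by
  induction h with
  | nil e => exact .nil (e.trans h')
  | cons e _ ih => exact .cons e (ih h')

theorem Chain.append {l l' : List (Dat ι c.G)} (h : c.Chain L l L') (h' : c.Chain L' l' L'') :
    c.Chain L (l ++ l') L'' := by
  induction h with
  | nil e => exact h'.eqv_left e
  | cons e _ ih => exact .cons e (ih h')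

theorem autl_link {F : ι → ℝ × E 3 → c.Y} {δ : Dat ι c.G} (h : c.StepFam F δ) {t : ℝ}
    (ht : t ∈ Icc (0 : ℝ) 1) (ht' : t ∉ Ioo (0 : ℝ) 1) : c.Link (sl F t) :=
  let ⟨_, h0, _, _, _, _, _, _, h1⟩ := h.one
  ⟨fun i => (h.fam i).slice ht, fun i => h.reg i t ht, fun i j x hx y hy e =>
    (h1 t ht i j x hx y hy e).resolve_right fun e' => ht' (e'.1 ▸ h0)⟩

theorem StepFam.link_zero {F : ι → ℝ × E 3 → c.Y} {δ : Dat ι c.G} (h : c.StepFam F δ) :
    c.Link (sl F 0) := autl_link h (by simp) (by simp)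

theorem StepFam.link_one {F : ι → ℝ × E 3 → c.Y} {δ : Dat ι c.G} (h : c.StepFam F δ) :
    c.Link (sl F 1) := autl_link h (by simp) (by simp)

end Ctx

theorem cnt_append {ι G : Type} (l l' : List (Dat ι G)) (i : ι) (g : G) :
    cnt (l ++ l') i g = cnt l i g + cnt l' i g := List.countP_append

theorem chi_cons {ι G : Type} [Group G] (δ : Dat ι G) (l : List (Dat ι G)) (i j : ι) (g : G) :
    chi (δ :: l) i j g = chi [δ] i j g + chi l i j g := by
  simp [chi]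

end Pool.Agent.CSP
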