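import Pool.Agent.Lib.MP_436e1a_gt.Stmt

/-! Calculus of `jac` and `Emb`; the inverse function theorem on 5-manifolds. -/

open scoped Manifold ContDiff Topology
open Set

namespace Pool.Agent.CSP

variable {M N P : Type} [TopologicalSpace M] [ChartedSpace (E 5) M] [IsManifold (𝓡 5) ∞ M]
  [TopologicalSpace N] [ChartedSpace (E 5) N] [IsManifold (𝓡 5) ∞ N]
  [TopologicalSpace P] [ChartedSpace (E 5) P] [IsManifold (𝓡 5) ∞ P]
  {s s' : ℝ} {f f' : M → N} {g : N → P} {W W' : Set M} {V : Set N}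

theorem jac_eq_det (f : E 5 → E 5) (v : E 5) : jac f v = (fderiv ℝ f v).det := by
  unfold jac
  rw [mfderiv_eq_fderiv]

omit [IsManifold (𝓡 5) ∞ M] [IsManifold (𝓡 5) ∞ N] in
theorem jac_congr {x : M} (h : f =ᶠ[𝓝 x] f') : jac f x = jac f' x := by
  unfold jac
  exact congrArg (fun L : E 5 →L[ℝ] E 5 => L.det) (h.mfderiv_eq (I := 𝓡 5) (I' := 𝓡 5))

omit [IsManifold (𝓡 5) ∞ M] [IsManifold (𝓡 5) ∞ N] [IsManifold (𝓡 5) ∞ P] in
theorem jac_comp {x : M} (hg : MDifferentiableAt (𝓡 5) (𝓡 5) g (f x))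
    (hf : MDifferentiableAt (𝓡 5) (𝓡 5) f x) : jac (g ∘ f) x = jac g (f x) * jac f x := by
  unfold jac
  have h := mfderiv_comp x hg hf
  have h2 : ∀ A B : E 5 →L[ℝ] E 5, (A.comp B).det = A.det * B.det := fun A B =>
    LinearMap.det_comp (A : E 5 →ₗ[ℝ] E 5) (B : E 5 →ₗ[ℝ] E 5)
  exact (congrArg (fun L : E 5 →L[ℝ] E 5 => L.det) h).trans (h2 _ _)

omit [IsManifold (𝓡 5) ∞ M] in
theorem jac_id (x : M) : jac (id : M → M) x = 1 := by
  unfold jac
  have h : (ContinuousLinearMap.id ℝ (E 5)).det = 1 := LinearMap.det_id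
  exact (congrArg (fun L : E 5 →L[ℝ] E 5 => L.det) (mfderiv_id (I := 𝓡 5) (x := x))).trans h

omit [IsManifold (𝓡 5) ∞ M] in
theorem emb_id (W : Set M) : Emb 1 (id : M → M) W := by
  refine ⟨contMDiffOn_id, injOn_id W, fun x _ => ?_⟩
  rw [jac_id]
  norm_num

omit [IsManifold (𝓡 5) ∞ M] [IsManifold (𝓡 5) ∞ N] in
theorem Emb.mono (h : Emb s f W) (hW : W' ⊆ W) : Emb s f W' := by
  exact ⟨h.1.mono hW, h.2.1.mono hW, fun x hx => h.2.2 x (hW hx)⟩

omit [IsManifold (𝓡 5) ∞ M] [IsManifold (𝓡 5) ∞ N] in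
theorem Emb.congr (h : Emb s f W) (hW : IsOpen W) (hf : EqOn f' f W) : Emb s f' W := by
  refine ⟨h.1.congr hf, h.2.1.congr hf.symm, fun x hx => ?_⟩
  rw [jac_congr (hf.eventuallyEq_of_mem (hW.mem_nhds hx))]
  exact h.2.2 x hx

omit [IsManifold (𝓡 5) ∞ M] [IsManifold (𝓡 5) ∞ N] in
theorem Emb.continuousOn (h : Emb s f W) : ContinuousOn f W := by
  exact h.1.continuousOn

omit [IsManifold (𝓡 5) ∞ M] [IsManifold (𝓡 5) ∞ N] [IsManifold (𝓡 5) ∞ P] in
theorem Emb.comp (hg : Emb s' g V) (hf : Emb s f W) (hV : IsOpen V) (hW : IsOpen W)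
    (hm : MapsTo f W V) : Emb (s' * s) (g ∘ f) W := by
  refine ⟨hg.1.comp hf.1 hm, hg.2.1.comp hf.2.1 hm, fun x hx => ?_⟩
  have h1 : MDifferentiableAt (𝓡 5) (𝓡 5) g (f x) :=
    (hg.1.contMDiffAt (hV.mem_nhds (hm hx))).mdifferentiableAt (by simp)
  have h2 : MDifferentiableAt (𝓡 5) (𝓡 5) f x :=
    (hf.1.contMDiffAt (hW.mem_nhds hx)).mdifferentiableAt (by simp)
  rw [jac_comp h1 h2]
  have := mul_pos (hg.2.2 _ (hm hx)) (hf.2.2 x hx)
  linarith [show s' * s * (jac g (f x) * jac f x) = s' * jac g (f x) * (s * jac f x) by ring]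

theorem emb_of_contDiffOn {f : E 5 → E 5} {W : Set (E 5)} (hf : ContDiffOn ℝ ∞ f W)
    (hi : InjOn f W) (hd : ∀ v ∈ W, 0 < s * (fderiv ℝ f v).det) : Emb s f W := by
  refine ⟨contMDiffOn_iff_contDiffOn.2 hf, hi, fun v hv => ?_⟩
  rw [jac_eq_det]
  exact hd v hv

omit [IsManifold (𝓡 5) ∞ M] [IsManifold (𝓡 5) ∞ N] in
/-- the Jacobian read in the charts -/
theorem emb_jac_chart {x : M} (h : MDifferentiableAt (𝓡 5) (𝓡 5) f x) :
    jac f x = (fderiv ℝ (chartAt (E 5) (f x) ∘ f ∘ (chartAt (E 5) x).symm)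
      (chartAt (E 5) x x)).det := by
  unfold jac
  have h1 := h.mfderiv
  have h2 : (fderivWithin ℝ (writtenInExtChartAt (𝓡 5) (𝓡 5) x f) (range (𝓡 5))
      (extChartAt (𝓡 5) x x) : E 5 →L[ℝ] E 5) =
      fderiv ℝ (chartAt (E 5) (f x) ∘ f ∘ (chartAt (E 5) x).symm) (chartAt (E 5) x x) := by
    rw [ModelWithCorners.range_eq_univ, fderivWithin_univ]
    rfl
  exact congrArg (fun L : E 5 →L[ℝ] E 5 => L.det) (h1.trans h2)

/-- the inverse function theorem in Euclidean space, with a smooth inverse on the whole target -/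
theorem emb_ift_flat {F : E 5 → E 5} {U : Set (E 5)} (hU : IsOpen U) (hF : ContDiffOn ℝ ∞ F U)
    {a : E 5} (ha : a ∈ U) (hd : (fderiv ℝ F a).det ≠ 0) :
    ∃ e : OpenPartialHomeomorph (E 5) (E 5), a ∈ e.source ∧ e.source ⊆ U ∧ (e : E 5 → E 5) = F ∧
      ContDiffOn ℝ ∞ e.symm e.target := by
  have hat : ∀ v ∈ U, ContDiffAt ℝ ∞ F v := fun v hv => hF.contDiffAt (hU.mem_nhds hv)
  have hder : ∀ v ∈ U, ∀ hv : (fderiv ℝ F v).det ≠ 0, HasFDerivAt F
      ((fderiv ℝ F v).toContinuousLinearEquivOfDetNeZero hv : E 5 →L[ℝ] E 5) v := by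
    intro v hv hv'
    rw [ContinuousLinearMap.coe_toContinuousLinearEquivOfDetNeZero]
    exact ((hat v hv).differentiableAt (by simp)).hasFDerivAt
  have hc : ContinuousOn (fun v => (fderiv ℝ F v).det) U :=
    ContinuousLinearMap.continuous_det.comp_continuousOn
      (hF.continuousOn_fderiv_of_isOpen hU (by simp))
  have hU' : IsOpen (U ∩ (fun v => (fderiv ℝ F v).det) ⁻¹' {0}ᶜ) :=
    hc.isOpen_inter_preimage hU isOpen_compl_singleton
  let e0 := (hat a ha).toOpenPartialHomeomorph F (hder a ha hd) (by simp)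
  refine ⟨e0.restrOpen _ hU', ⟨(hat a ha).mem_toOpenPartialHomeomorph_source _ _, ha, hd⟩,
    fun v hv => hv.2.1, rfl, fun w hw => ?_⟩
  have hm := (e0.restrOpen _ hU').map_target hw
  exact ((e0.restrOpen _ hU').contDiffAt_symm hw (hder _ hm.2.1 hm.2.2)
    (hat _ hm.2.1)).contDiffWithinAt

/-- Inverse function theorem. Sketch. Write `f` in the extended charts at `x` and `f x`
(`writtenInExtChartAt`), `mfderiv` is its `fderiv`; `ContDiffAt.toOpenPartialHomeomorph`; restrict to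
the open set where the derivative is invertible, there the inverse is smooth
(`OpenPartialHomeomorph.contDiffAt_symm`); conjugate back by the charts. -/
theorem ift_mfd (hW : IsOpen W) (hf : ContMDiffOn (𝓡 5) (𝓡 5) ∞ f W) {x : M} (hx : x ∈ W)
    (hj : jac f x ≠ 0) : ∃ e : OpenPartialHomeomorph M N, x ∈ e.source ∧ e.source ⊆ W ∧
      EqOn f e e.source ∧ ContMDiffOn (𝓡 5) (𝓡 5) ∞ e.symm e.target := by
  let c := chartAt (E 5) x
  let d := chartAt (E 5) (f x)
  have hW1 : IsOpen (W ∩ f ⁻¹' d.source) :=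
    hf.continuousOn.isOpen_inter_preimage hW d.open_source
  have hU : IsOpen (c.target ∩ c.symm ⁻¹' (W ∩ f ⁻¹' d.source)) :=
    c.isOpen_inter_preimage_symm hW1
  have hF : ContMDiffOn (𝓡 5) (𝓡 5) ∞ (d ∘ f ∘ c.symm)
      (c.target ∩ c.symm ⁻¹' (W ∩ f ⁻¹' d.source)) := by
    refine (contMDiffOn_chart (I := 𝓡 5) (n := ∞) (x := f x)).comp
      (hf.comp ((contMDiffOn_chart_symm (I := 𝓡 5) (n := ∞) (x := x)).mono inter_subset_left)
        fun v hv => hv.2.1) fun v hv => hv.2.2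
  have hxc : x ∈ c.source := mem_chart_source _ x
  have ha : c x ∈ c.target ∩ c.symm ⁻¹' (W ∩ f ⁻¹' d.source) := by
    refine ⟨c.map_source hxc, ?_⟩
    rw [mem_preimage, c.left_inv hxc]
    exact ⟨hx, mem_chart_source _ (f x)⟩
  have hd : (fderiv ℝ (d ∘ f ∘ c.symm) (c x)).det ≠ 0 := by
    rw [← emb_jac_chart ((hf.contMDiffAt (hW.mem_nhds hx)).mdifferentiableAt (by simp))]
    exact hj
  obtain ⟨e, he1, he2, he3, he4⟩ := emb_ift_flat hU (contMDiffOn_iff_contDiffOn.1 hF) ha hd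
  have key : ∀ y ∈ c.source, c y ∈ e.source → y ∈ W ∧ f y ∈ d.source ∧ e (c y) = d (f y) := by
    intro y hy hy'
    have h1 := (he2 hy').2
    rw [mem_preimage, c.left_inv hy] at h1
    refine ⟨h1.1, h1.2, ?_⟩
    rw [he3]
    simp only [Function.comp_apply, c.left_inv hy]
  refine ⟨(c.trans e).trans d.symm, ⟨⟨hxc, he1⟩, ?_⟩, fun y hy => (key y hy.1.1 hy.1.2).1,
    fun y hy => ?_, ?_⟩
  · obtain ⟨-, h2, h3⟩ := key x hxc he1
    show e (c x) ∈ d.target
    rw [h3]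
    exact d.map_source h2
  · obtain ⟨-, h2, h3⟩ := key y hy.1.1 hy.1.2
    show f y = d.symm (e (c y))
    rw [h3, d.left_inv h2]
  · show ContMDiffOn (𝓡 5) (𝓡 5) ∞ (c.symm ∘ e.symm ∘ d) _
    refine (contMDiffOn_chart_symm (I := 𝓡 5) (n := ∞) (x := x)).comp
      ((contMDiffOn_iff_contDiffOn.2 he4).comp
        ((contMDiffOn_chart (I := 𝓡 5) (n := ∞) (x := f x)).mono fun z hz => hz.1)
        fun z hz => hz.2.1) fun z hz => hz.2.2

omit [IsManifold (𝓡 5) ∞ M] [IsManifold (𝓡 5) ∞ N] in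
theorem emb_jac_ne (h : Emb s f W) {x : M} (hx : x ∈ W) : jac f x ≠ 0 := by
  intro h0
  have := h.2.2 x hx
  rw [h0, mul_zero] at this
  exact lt_irrefl _ this

theorem emb_map_nhds (h : Emb s f W) (hW : IsOpen W) {x : M} (hx : x ∈ W) :
    Filter.map f (𝓝 x) = 𝓝 (f x) := by
  obtain ⟨e, h1, -, h3, -⟩ := ift_mfd hW h.1 hx (emb_jac_ne h hx)
  rw [Filter.map_congr (h3.eventuallyEq_of_mem (e.open_source.mem_nhds h1)), h3 h1]
  exact e.map_nhds_eq h1

theorem Emb.isOpen_image (h : Emb s f W) (hW : IsOpen W) (hW' : IsOpen W') (hs : W' ⊆ W) :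
    IsOpen (f '' W') := by
  rw [isOpen_iff_mem_nhds]
  rintro _ ⟨x, hx, rfl⟩
  rw [← emb_map_nhds h hW (hs hx)]
  exact Filter.image_mem_map (hW'.mem_nhds hx)

theorem Emb.map_nhds (h : Emb s f W) (hW : IsOpen W) {x : M} (hx : x ∈ W) :
    Filter.map f (𝓝 x) = 𝓝 (f x) := by
  exact emb_map_nhds h hW hx

/-- the inverse of an embedding of an open set (`Function.invFunOn`) -/
theorem Emb.exists_inv [Nonempty M] (h : Emb s f W) (hW : IsOpen W) :
    ∃ k : N → M, Emb s k (f '' W) ∧ (∀ x ∈ W, k (f x) = x) ∧ ∀ y ∈ f '' W, k y ∈ W ∧ f (k y) = y := by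
  have hl : ∀ x ∈ W, Function.invFunOn f W (f x) = x := fun x hx => h.2.1.leftInvOn_invFunOn hx
  have hsm : ∀ x ∈ W, ContMDiffAt (𝓡 5) (𝓡 5) ∞ (Function.invFunOn f W) (f x) := by
    intro x hx
    obtain ⟨e, h1, h2, h3, h4⟩ := ift_mfd hW h.1 hx (emb_jac_ne h hx)
    have ht : f x ∈ e.target := by
      rw [h3 h1]
      exact e.map_source h1
    refine (h4.contMDiffAt (e.open_target.mem_nhds ht)).congr_of_eventuallyEq ?_
    filter_upwards [e.open_target.mem_nhds ht] with y hy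
    have h5 := e.map_target hy
    have h6 : f (e.symm y) = y := by rw [h3 h5, e.right_inv hy]
    rw [← hl _ (h2 h5), h6]
  refine ⟨Function.invFunOn f W, ⟨?_, ?_, ?_⟩, hl, ?_⟩
  · rintro _ ⟨x, hx, rfl⟩
    exact (hsm x hx).contMDiffWithinAt
  · rintro _ ⟨x, hx, rfl⟩ _ ⟨y, hy, rfl⟩ hxy
    rw [hl x hx, hl y hy] at hxy
    rw [hxy]
  · rintro _ ⟨x, hx, rfl⟩
    have h1 : jac (Function.invFunOn f W ∘ f) x = 1 := by
      rw [← jac_id x]
      refine jac_congr ?_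
      filter_upwards [hW.mem_nhds hx] with y hy
      exact hl y hy
    rw [jac_comp ((hsm x hx).mdifferentiableAt (by simp))
      ((h.1.contMDiffAt (hW.mem_nhds hx)).mdifferentiableAt (by simp))] at h1
    have h2 := h.2.2 x hx
    have h3 : s * jac (Function.invFunOn f W) (f x) =
        (s * jac f x) * jac (Function.invFunOn f W) (f x) ^ 2 := by
      linear_combination (-(s * jac (Function.invFunOn f W) (f x))) * h1
    have h4 : jac (Function.invFunOn f W) (f x) ≠ 0 := left_ne_zero_of_mul_eq_one h1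
    rw [h3]
    positivity
  · rintro _ ⟨x, hx, rfl⟩
    rw [hl x hx]
    exact ⟨hx, rfl⟩

omit [IsManifold (𝓡 5) ∞ M] [IsManifold (𝓡 5) ∞ N] in
/-- being an embedding is local, apart from injectivity -/
theorem emb_of_local (hi : InjOn f W)
    (h : ∀ x ∈ W, ∃ W₁ f₁, IsOpen W₁ ∧ x ∈ W₁ ∧ Emb s f₁ W₁ ∧ EqOn f f₁ W₁) : Emb s f W := by
  refine ⟨fun x hx => ?_, hi, fun x hx => ?_⟩
  · obtain ⟨W₁, f₁, h1, h2, h3, h4⟩ := h x hx
    exact ((h3.1.contMDiffAt (h1.mem_nhds h2)).congr_of_eventuallyEq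
      (h4.eventuallyEq_of_mem (h1.mem_nhds h2))).contMDiffWithinAt
  · obtain ⟨W₁, f₁, h1, h2, h3, h4⟩ := h x hx
    rw [jac_congr (h4.eventuallyEq_of_mem (h1.mem_nhds h2))]
    exact h3.2.2 x h2

/-- every chart of the oriented atlas is an orientation preserving embedding
(`mfderiv` of the chart at `y` is the derivative of the transition map from `chartAt y`) -/
theorem Mfd.emb_chart (X : Mfd) {e : OpenPartialHomeomorph X (E 5)} (he : e ∈ atlas (E 5) X) :
    Emb 1 e e.source ∧ Emb 1 e.symm e.target := by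
  have hm := IsManifold.subset_maximalAtlas (I := 𝓡 5) (n := ∞) he
  have h1 := contMDiffOn_of_mem_maximalAtlas hm
  have h2 := contMDiffOn_symm_of_mem_maximalAtlas hm
  refine ⟨⟨h1, e.injOn, fun y hy => ?_⟩, ⟨h2, e.symm.injOn, fun v hv => ?_⟩⟩
  · rw [one_mul, emb_jac_chart
      ((h1.contMDiffAt (e.open_source.mem_nhds hy)).mdifferentiableAt (by simp))]
    have hy' := mem_chart_source (E 5) y
    refine X.ori (chartAt (E 5) y) (chart_mem_atlas _ y) e he (chartAt (E 5) y y)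
      ⟨(chartAt (E 5) y).map_source hy', ?_⟩
    show (chartAt (E 5) y).symm (chartAt (E 5) y y) ∈ e.source
    rw [(chartAt (E 5) y).left_inv hy']
    exact hy
  · rw [one_mul, emb_jac_chart
      ((h2.contMDiffAt (e.open_target.mem_nhds hv)).mdifferentiableAt (by simp))]
    exact X.ori e he (chartAt (E 5) (e.symm v)) (chart_mem_atlas _ _) v
      ⟨hv, mem_chart_source (E 5) (e.symm v)⟩

end Pool.Agent.CSP
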