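import Pool.Agent.Lib.MP_436e1a_gt.B.NearId
import Pool.Agent.Lib.MP_436e1a_gt.A.Freeze

/-! Isotopy extension. -/

open scoped Manifold ContDiff Topology
open Set

namespace Pool.Agent.CSP

namespace Ctx

variable {c : Ctx} {ι V Z : Type} [Finite ι] [NormedAddCommGroup V] [NormedSpace ℝ V]
  [FiniteDimensional ℝ V] [NormedAddCommGroup Z] [NormedSpace ℝ Z] [FiniteDimensional ℝ Z]

/-- Local freezing. -/
theorem extloc {t₀ : ℝ} {F : ι → ℝ × V → c.Y} {κ : ι → V → Z} (hκ : ∀ i, ContDiff ℝ ∞ (κ i))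
    {K : ι → Set V} (hK : ∀ i, IsCompact (K i)) (hF : ∀ i, c.SmNear (F i) ({t₀} ×ˢ K i))
    (hK0 : ∀ i, ∀ x ∈ K i, κ i x = 0)
    (hi : ∀ i, ∀ x ∈ K i, ∀ v, fderiv ℝ (c.am (F i)) (t₀, x) (0, v) = 0 →
      fderiv ℝ (κ i) x v = 0 → v = 0)
    (hj : ∀ i j, ∀ x ∈ K i, ∀ y ∈ K j, c.q (F i (t₀, x)) = c.q (F j (t₀, y)) → i = j ∧ x = y)
    {C : Set c.M} (hC : IsClosed C) (hCK : ∀ i, ∀ x ∈ K i, c.q (F i (t₀, x)) ∉ C) :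
    ∃ θ > 0, ∃ Φ Φ₀, c.AutFam (Ioo (t₀ - θ) (t₀ + θ)) Φ Φ₀ ∧ (∀ y, Φ (t₀, y) = y) ∧
      ∀ t ∈ Ioo (t₀ - θ) (t₀ + θ), (∀ i, ∀ x ∈ K i, Φ (t, F i (t, x)) = F i (t₀, x)) ∧
        ∀ y, c.q y ∈ C → Φ (t, y) = y := by
  choose O hO hKO hsm using hF
  obtain ⟨θ₁, h1, e, he, he0, heC, hm⟩ := exists_freeze hO (f := fun i => c.am (F i))
    (fun i => (hsm i).2) hκ hK (fun i x hx => hKO i ⟨rfl, hx⟩) hK0 hi
    (fun i j x hx y hy h => hj i j x hx y hy (c.ι_inj h)) (C := c.ι '' C)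
    (c.isClosedEmbedding_ι.isClosedMap _ hC) fun i x hx ⟨m, hm, e⟩ => hCK i x hx (c.ι_inj e ▸ hm)
  obtain ⟨θ₂, h2, Φ, Φ₀, hA, hΦ⟩ := exists_autFam he he0
  have h3 := lt_min h1 h2
  have hs : Ioo (t₀ - min θ₁ θ₂) (t₀ + min θ₁ θ₂) ⊆ Ioo (t₀ - θ₂) (t₀ + θ₂) :=
    Ioo_subset_Ioo (by linarith [min_le_right θ₁ θ₂]) (by linarith [min_le_right θ₁ θ₂])
  have ha : ∀ t ∈ Ioo (t₀ - min θ₁ θ₂) (t₀ + min θ₁ θ₂), |t - t₀| ≤ θ₁ := fun t ht =>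
    abs_le.2 ⟨by linarith [min_le_left θ₁ θ₂, ht.1], by linarith [min_le_left θ₁ θ₂, ht.2]⟩
  have h0 : t₀ ∈ Ioo (t₀ - min θ₁ θ₂) (t₀ + min θ₁ θ₂) := ⟨by linarith, by linarith⟩
  have h4 : ∀ y, Φ (t₀, y) = y := fun y => (hΦ t₀ (hs h0) y).2 (he0 _)
  refine ⟨_, h3, Φ, Φ₀, ⟨hA.cont.mono (prod_mono_left hs), hA.sm.mono (prod_mono_left hs),
    fun t ht => hA.aut t (hs ht)⟩, h4, fun t ht => ⟨fun i x hx => ?_, fun y hy =>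
      (hΦ t (hs ht) y).2 (heC t _ (mem_image_of_mem _ hy))⟩⟩
  refine c.lift_unique (f := fun t => Φ (t, F i (t, x))) (g := fun _ => F i (t₀, x))
    isPreconnected_Ioo (hA.cont.comp (continuousOn_id.prodMk ((hsm i).1.comp
      (continuousOn_id.prodMk continuousOn_const) fun s hs' => (hm s (ha s hs') i x hx).1))
      fun s hs' => ⟨hs hs', trivial⟩) continuousOn_const (fun s hs' => c.ι_inj ?_) h0 (h4 _) ht
  rw [(hΦ s (hs hs') _).1]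
  exact (congrArg c.ρ ((congrArg _ (hm s (ha s hs') i x hx).2).trans (add_sub_cancel _ _))).trans
    (c.ρ_ι _)

/-- Isotopy extension, relative to a closed set `C` that misses the track. -/
theorem ext {F : ι → ℝ × V → c.Y} {κ : ι → V → Z} (hκ : ∀ i, ContDiff ℝ ∞ (κ i))
    {K : ι → Set V} (hK : ∀ i, IsCompact (K i)) (hF : ∀ i, c.SmNear (F i) (Icc 0 1 ×ˢ K i))
    (hK0 : ∀ i, ∀ x ∈ K i, κ i x = 0)
    (hi : ∀ t ∈ Icc (0 : ℝ) 1, ∀ i, ∀ x ∈ K i, ∀ v, fderiv ℝ (c.am (F i)) (t, x) (0, v) = 0 →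
      fderiv ℝ (κ i) x v = 0 → v = 0)
    (hj : ∀ t ∈ Icc (0 : ℝ) 1, ∀ i j, ∀ x ∈ K i, ∀ y ∈ K j,
      c.q (F i (t, x)) = c.q (F j (t, y)) → i = j ∧ x = y)
    {C : Set c.M} (hC : IsClosed C)
    (hCK : ∀ t ∈ Icc (0 : ℝ) 1, ∀ i, ∀ x ∈ K i, c.q (F i (t, x)) ∉ C) :
    ∃ φ : c.Aut, (∀ i, ∀ x ∈ K i, φ.up (F i (0, x)) = F i (1, x)) ∧
      ∀ y, c.q y ∈ C → φ.up y = y := by
  refine isPreconnected_Icc.induction₂ (fun s t => ∃ φ : c.Aut,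
    (∀ i, ∀ x ∈ K i, φ.up (F i (s, x)) = F i (t, x)) ∧ ∀ y, c.q y ∈ C → φ.up y = y)
    (fun t₀ h0 => ?_) ?_ ?_ (left_mem_Icc.2 zero_le_one) (right_mem_Icc.2 zero_le_one)
  · obtain ⟨θ, h1, Φ, Φ₀, hA, -, h2⟩ := extloc hκ hK
      (fun i => (hF i).mono (prod_mono_left (singleton_subset_iff.2 h0))) hK0 (hi t₀ h0) (hj t₀ h0)
      hC (hCK t₀ h0)
    filter_upwards [mem_nhdsWithin_of_mem_nhds
      (Ioo_mem_nhds (sub_lt_self t₀ h1) (lt_add_of_pos_right t₀ h1))] with t ht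
    obtain ⟨φ, h3, -⟩ := hA.aut t ht
    obtain ⟨ψ, h4, -⟩ := φ.exists_symm
    exact ⟨ψ, fun i x hx => by rw [← (h2 t ht).1 i x hx, ← h3, h4],
      fun y hy => (congrArg ψ.up ((h3 y).trans ((h2 t ht).2 y hy)).symm).trans (h4 y)⟩
  · rintro s t u - - - ⟨φ, h1, h2⟩ ⟨ψ, h3, h4⟩
    obtain ⟨χ, h5, -⟩ := φ.exists_trans ψ
    exact ⟨χ, fun i x hx => by rw [h5, h1 i x hx, h3 i x hx], fun y hy => by
      rw [h5, h2 y hy, h4 y hy]⟩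
  · rintro s t - - ⟨φ, h1, h2⟩
    obtain ⟨ψ, h3, -⟩ := φ.exists_symm
    exact ⟨ψ, fun i x hx => by rw [← h1 i x hx, h3],
      fun y hy => (congrArg ψ.up (h2 y hy).symm).trans (h3 y)⟩

/-- isotopic links are equivalent (`κ x = ‖x‖ ^ 2 - 1`, `C = ∅`) -/
theorem Iso.eqv {F : ι → ℝ × E 3 → c.Y} (h : c.Iso F) : c.Eqv (sl F 0) (sl F 1) := by
  obtain ⟨φ, h1, -⟩ := ext (F := F) (κ := fun _ x => ‖x‖ ^ 2 - 1) (K := fun _ => S2)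
    (fun _ => (contDiff_norm_sq ℝ).sub contDiff_const) (fun _ => isCompact_sphere 0 1) h.1
    (fun _ x hx => by rw [mem_sphere_zero_iff_norm.1 hx, one_pow, sub_self])
    (fun t ht i x hx v h1 h2 => (h.2 t ht).imm i x hx v (by
      rw [fderiv_sub_const, (hasStrictFDerivAt_norm_sq x).hasFDerivAt.fderiv] at h2
      simpa using h2)
      ((fderiv_slice ((h.1 i).differentiableAt ⟨ht, hx⟩) v).trans h1))
    (fun t ht => (h.2 t ht).inj) isClosed_empty fun _ _ _ _ _ => notMem_empty _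
  exact ⟨φ, h1⟩

end Ctx

end Pool.Agent.CSP
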