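import Pool.Agent.Lib.MP_436e1a_gt.B.Sm
import Pool.Agent.Lib.MP_436e1a_gt.B.Emb

/-! Oriented frames and coframes. -/

open scoped Manifold ContDiff Topology
open Set

namespace Pool.Agent.CSP

theorem sgn_det_comp (A B : E 5 →L[ℝ] E 5) : (A.comp B).det = A.det * B.det :=
  LinearMap.det_comp (A : E 5 →ₗ[ℝ] E 5) (B : E 5 →ₗ[ℝ] E 5)

theorem sgn_det_id : (ContinuousLinearMap.id ℝ (E 5)).det = 1 := LinearMap.det_id

theorem sgn_isUnit {B : E 5 →L[ℝ] E 5} (h : B.det ≠ 0) : IsUnit B :=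
  ContinuousLinearMap.isUnit_iff_bijective.2 (B.toContinuousLinearEquivOfDetNeZero h).bijective

theorem sgn_inv_left {B : E 5 →L[ℝ] E 5} (h : B.det ≠ 0) (u : E 5) :
    Ring.inverse B (B u) = u :=
  congrArg (fun L : E 5 →L[ℝ] E 5 => L u) (Ring.inverse_mul_cancel B (sgn_isUnit h))

theorem sgn_inv_right {B : E 5 →L[ℝ] E 5} (h : B.det ≠ 0) (u : E 5) :
    B (Ring.inverse B u) = u :=
  congrArg (fun L : E 5 →L[ℝ] E 5 => L u) (Ring.mul_inverse_cancel B (sgn_isUnit h))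

theorem sgn_det_ne {B : E 5 →L[ℝ] E 5} (h : ∀ u, B u = 0 → u = 0) : B.det ≠ 0 := by
  intro h0
  refine LinearMap.det_eq_zero_iff_ker_ne_bot.1 h0 ?_
  exact LinearMap.ker_eq_bot'.2 h

theorem sgn_det_one {B : E 5 →L[ℝ] E 5} (h : ∀ u, B u = u) : B.det = 1 := by
  rw [show B = ContinuousLinearMap.id ℝ (E 5) from ContinuousLinearMap.ext h, sgn_det_id]

theorem sgn_ne {s d : ℝ} (h : 0 < s * d) : d ≠ 0 := by
  rintro rfl
  simp at h

theorem sgn_inv_cont {T : Type} [TopologicalSpace T] {S : Set T} {t₀ : T}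
    {b : T → E 5 →L[ℝ] E 5} (hb : ContinuousWithinAt b S t₀) (h : (b t₀).det ≠ 0) :
    ContinuousWithinAt (fun t => Ring.inverse (b t)) S t₀ := by
  obtain ⟨u, hu⟩ := sgn_isUnit h
  have h1 := NormedRing.inverse_continuousAt u
  rw [hu] at h1
  exact ContinuousAt.comp_continuousWithinAt (f := b) h1 hb

theorem sgn_det_cont {T : Type} [TopologicalSpace T] {S : Set T} {t₀ : T}
    {b : T → E 5 →L[ℝ] E 5} (hb : ContinuousWithinAt b S t₀) :
    ContinuousWithinAt (fun t => (b t).det) S t₀ :=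
  ContinuousAt.comp_continuousWithinAt (f := b) ContinuousLinearMap.continuous_det.continuousAt hb

namespace Ctx

variable {c : Ctx} {x : c.M} {A : E 5 →L[ℝ] E c.N} {C : E c.N →L[ℝ] E 5} {ε ε' : ℤˣ}

theorem sgn_left (x : c.M) : ∃ C : E c.N →L[ℝ] E 5, ∀ u, C (c.dι x u) = u := by
  obtain ⟨g, hg⟩ := (c.dι x : E 5 →ₗ[ℝ] E c.N).exists_leftInverse_of_injective
    (LinearMap.ker_eq_bot.2 (c.dι_inj x))
  exact ⟨LinearMap.toContinuousLinearMap g, fun u => congrArg (fun L : E 5 →ₗ[ℝ] E 5 => L u) hg⟩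

theorem sgn_factor (hP : ∀ u, c.P x (A u) = A u) :
    ∃ B : E 5 →L[ℝ] E 5, A = (c.dι x).comp B := by
  obtain ⟨C, hC⟩ := sgn_left x
  refine ⟨C.comp A, ContinuousLinearMap.ext fun u => ?_⟩
  obtain ⟨v, hv⟩ := c.P_eq_self_iff.1 (hP u)
  simp only [ContinuousLinearMap.comp_apply]
  rw [hv, hC]

theorem Sgn.inj (h : c.Sgn x A ε) : Function.Injective A := by
  obtain ⟨B, rfl, hB⟩ := h
  intro u v huv
  have h1 : B u = B v := c.dι_inj x huv
  rw [← sgn_inv_left (sgn_ne hB) u, h1, sgn_inv_left (sgn_ne hB)]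

theorem Sgn.P_eq (h : c.Sgn x A ε) (u : E 5) : c.P x (A u) = A u := by
  obtain ⟨B, rfl, -⟩ := h
  exact c.P_dι x _

theorem Sgn.surj (h : c.Sgn x A ε) {w : E c.N} (hw : c.P x w = w) : ∃ u, A u = w := by
  obtain ⟨B, rfl, hB⟩ := h
  obtain ⟨v, rfl⟩ := c.P_eq_self_iff.1 hw
  refine ⟨Ring.inverse B v, ?_⟩
  rw [ContinuousLinearMap.comp_apply, sgn_inv_right (sgn_ne hB)]

theorem Sgn.unique (h : c.Sgn x A ε) (h' : c.Sgn x A ε') : ε = ε' := by
  obtain ⟨B, rfl, hB⟩ := h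
  obtain ⟨B', h1, hB'⟩ := h'
  have h2 : B = B' := ContinuousLinearMap.ext fun u =>
    c.dι_inj x (congrArg (fun L : E 5 →L[ℝ] E c.N => L u) h1)
  subst h2
  rcases Int.units_eq_one_or ε with rfl | rfl <;> rcases Int.units_eq_one_or ε' with rfl | rfl
  · rfl
  · simp at hB hB'
    linarith
  · simp at hB hB'
    linarith
  · rfl

theorem Sgn.comp (h : c.Sgn x A ε) {B : E 5 →L[ℝ] E 5} (hB : 0 < ((ε' : ℤ) : ℝ) * B.det) :
    c.Sgn x (A.comp B) (ε * ε') := by
  obtain ⟨B', rfl, hB'⟩ := h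
  refine ⟨B'.comp B, rfl, ?_⟩
  rw [sgn_det_comp]
  push_cast
  nlinarith [mul_pos hB hB']

theorem exists_sgn (hP : ∀ u, c.P x (A u) = A u) (hi : ∀ u, A u = 0 → u = 0) :
    ∃ ε, c.Sgn x A ε := by
  obtain ⟨B, rfl⟩ := sgn_factor hP
  have h : B.det ≠ 0 := sgn_det_ne fun u hu => hi u (by
    rw [ContinuousLinearMap.comp_apply, hu, map_zero])
  rcases lt_or_gt_of_ne h with h | h
  · exact ⟨-1, B, rfl, by simpa using h⟩
  · exact ⟨1, B, rfl, by simpa using h⟩

/-- two frames differ by a linear map whose determinant has the sign of the product -/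
theorem Sgn.exists_comp {A' : E 5 →L[ℝ] E c.N} (h : c.Sgn x A ε) (h' : c.Sgn x A' ε') :
    ∃ B : E 5 →L[ℝ] E 5, A' = A.comp B ∧ 0 < ((ε * ε' : ℤˣ) : ℤ) * B.det := by
  obtain ⟨B, rfl, hB⟩ := h
  obtain ⟨B', rfl, hB'⟩ := h'
  have h1 : B.comp ((Ring.inverse B).comp B') = B' := ContinuousLinearMap.ext fun u => by
    simp only [ContinuousLinearMap.comp_apply]
    rw [sgn_inv_right (sgn_ne hB)]
  refine ⟨(Ring.inverse B).comp B', by rw [ContinuousLinearMap.comp_assoc, h1], ?_⟩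
  have h2 := congrArg ContinuousLinearMap.det h1
  rw [sgn_det_comp] at h2
  rw [← h2] at hB'
  generalize ((Ring.inverse B).comp B').det = d at hB' ⊢
  have h3 : ((ε : ℤ) : ℝ) * ((ε : ℤ) : ℝ) = 1 := by
    rcases Int.units_eq_one_or ε with rfl | rfl <;> simp
  have h4 : ((ε' : ℤ) : ℝ) * (B.det * d) =
      (((ε : ℤ) : ℝ) * B.det) * (((ε : ℤ) : ℝ) * ((ε' : ℤ) : ℝ) * d) := by
    linear_combination (-(((ε' : ℤ) : ℝ) * (B.det * d))) * h3
  rw [h4] at hB'
  push_cast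
  exact (pos_iff_pos_of_mul_pos hB').1 hB

theorem Cof.sgn_iff (h : c.Cof x C) :
    c.Sgn x A ε ↔ (∀ u, c.P x (A u) = A u) ∧ 0 < ((ε : ℤ) : ℝ) * (C.comp A).det := by
  have h0 : 0 < (C.comp (c.dι x)).det := h
  constructor
  · intro h'
    refine ⟨h'.P_eq, ?_⟩
    obtain ⟨B, rfl, hB⟩ := h'
    rw [← ContinuousLinearMap.comp_assoc, sgn_det_comp, mul_left_comm]
    exact mul_pos h0 hB
  · rintro ⟨hP, h1⟩
    obtain ⟨B, rfl⟩ := sgn_factor hP
    rw [← ContinuousLinearMap.comp_assoc, sgn_det_comp, mul_left_comm] at h1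
    exact ⟨B, rfl, (pos_iff_pos_of_mul_pos h1).1 h0⟩

theorem Sgn.cof_iff (h : c.Sgn x A 1) : c.Cof x C ↔ 0 < (C.comp A).det := by
  obtain ⟨B, rfl, hB⟩ := h
  have hB' : 0 < B.det := by simpa using hB
  rw [← ContinuousLinearMap.comp_assoc, sgn_det_comp]
  exact ⟨fun h => mul_pos h hB', fun h => (pos_iff_pos_of_mul_pos h).2 hB'⟩

theorem Cof.inj (h : c.Cof x C) {w : E c.N} (hw : c.P x w = w) (h0 : C w = 0) : w = 0 := by
  obtain ⟨v, rfl⟩ := c.P_eq_self_iff.1 hw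
  have h1 := sgn_inv_left (ne_of_gt h) v
  rw [ContinuousLinearMap.comp_apply, h0, map_zero] at h1
  rw [← h1, map_zero]

theorem exists_cof (x : c.M) : ∃ C, c.Cof x C := by
  obtain ⟨C, hC⟩ := sgn_left x
  refine ⟨C, ?_⟩
  rw [Cof, sgn_det_one (B := C.comp (c.dι x)) hC]
  exact one_pos

/-- The key continuity statement; this is where the oriented atlas is used. Sketch. Near `x₀` let
`e = chartAt x₀`, `h = ι ∘ e.symm`. Then `dι y = Dh (e y) ∘ mfderiv e y` and `jac e y > 0`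
(`Mfd.emb_chart`), so `det (C ∘ dι y)` has the sign of `det (C ∘ Dh (e y))`, continuous in `(y, C)`. -/
theorem isOpen_det (c : Ctx) (s : ℝ) :
    IsOpen {p : c.M × (E c.N →L[ℝ] E 5) | 0 < s * (p.2.comp (c.dι p.1)).det} := by
  rw [isOpen_iff_mem_nhds]
  rintro ⟨x₀, C₀⟩ h₀
  let e := chartAt (E 5) x₀
  obtain ⟨he, he'⟩ := c.M.emb_chart (e := e) (chart_mem_atlas _ x₀)
  let h : E 5 → E c.N := c.ι ∘ e.symm
  have hh : ContDiffOn ℝ ∞ h e.target :=
    contMDiffOn_iff_contDiffOn.1 (c.A.ι_smooth.comp_contMDiffOn he'.1)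
  have hd : ∀ y ∈ e.source, ∀ C : E c.N →L[ℝ] E 5,
      (C.comp (c.dι y)).det = (C.comp (fderiv ℝ h (e y))).det * jac e y := by
    intro y hy C
    have h1 : c.ι =ᶠ[𝓝 y] h ∘ e := by
      filter_upwards [e.open_source.mem_nhds hy] with z hz
      simp only [h, Function.comp_apply, e.left_inv hz]
    have h2 : DifferentiableAt ℝ h (e y) :=
      (hh.contDiffAt (e.open_target.mem_nhds (e.map_source hy))).differentiableAt (by simp)
    have h3 : MDifferentiableAt (𝓡 5) (𝓡 5) e y :=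
      (he.1.contMDiffAt (e.open_source.mem_nhds hy)).mdifferentiableAt (by simp)
    have h4 : c.dι y = (fderiv ℝ h (e y)).comp
        (show E 5 →L[ℝ] E 5 from mfderiv (𝓡 5) (𝓡 5) e y) := by
      rw [dι, h1.mfderiv_eq, mfderiv_comp y h2.mdifferentiableAt h3, mfderiv_eq_fderiv]
      rfl
    rw [h4, ← ContinuousLinearMap.comp_assoc, sgn_det_comp]
    rfl
  have hiff : ∀ y ∈ e.source, ∀ C : E c.N →L[ℝ] E 5,
      0 < s * (C.comp (c.dι y)).det ↔ 0 < s * (C.comp (fderiv ℝ h (e y))).det := by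
    intro y hy C
    have hj : 0 < jac e y := by simpa using he.2.2 y hy
    rw [hd y hy, ← mul_assoc]
    exact ⟨fun h => (pos_iff_pos_of_mul_pos h).2 hj, fun h => mul_pos h hj⟩
  have hx : x₀ ∈ e.source := mem_chart_source _ x₀
  have h5 : ContinuousAt (fderiv ℝ h) (e x₀) :=
    (hh.continuousOn_fderiv_of_isOpen e.open_target (by simp)).continuousAt
      (e.open_target.mem_nhds (e.map_source hx))
  have h6 : ContinuousAt (fun p : c.M × (E c.N →L[ℝ] E 5) => fderiv ℝ h (e p.1)) (x₀, C₀) :=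
    ContinuousAt.comp (f := fun p : c.M × (E c.N →L[ℝ] E 5) => e p.1) h5
      (ContinuousAt.comp (f := Prod.fst) (e.continuousAt hx) continuousAt_fst)
  have h7 : ContinuousAt (fun p : c.M × (E c.N →L[ℝ] E 5) =>
      s * (p.2.comp (fderiv ℝ h (e p.1))).det) (x₀, C₀) :=
    continuousAt_const.mul (ContinuousLinearMap.continuous_det.continuousAt.comp
      (continuousAt_snd.clm_comp h6))
  have h8 := h7.eventually (lt_mem_nhds ((hiff x₀ hx C₀).1 h₀))
  have h9 : ∀ᶠ p : c.M × (E c.N →L[ℝ] E 5) in 𝓝 (x₀, C₀), p.1 ∈ e.source :=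
    continuousAt_fst.eventually (e.open_source.mem_nhds hx)
  filter_upwards [h8, h9] with p hp hp'
  exact (hiff p.1 hp' p.2).2 hp

theorem isOpen_cof (c : Ctx) : IsOpen {p : c.M × (E c.N →L[ℝ] E 5) | c.Cof p.1 p.2} := by
  simpa only [one_mul, Cof] using c.isOpen_det 1

/-- a coframe is a chart near the point (`ift_mfd` for `C ∘ ι`) -/
theorem Cof.locInj (h : c.Cof x C) : ∃ W ∈ 𝓝 x, InjOn (fun y => C (c.ι y)) W := by
  have h1 : ContMDiff (𝓡 5) (𝓡 5) ∞ (C ∘ c.ι) := C.contMDiff.comp c.A.ι_smooth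
  have h2 : jac (C ∘ c.ι) x = (C.comp (c.dι x)).det := by
    rw [jac, mfderiv_comp x C.mdifferentiableAt (c.A.ι_smooth.mdifferentiableAt (by simp)),
      ContinuousLinearMap.mfderiv_eq]
    rfl
  obtain ⟨e, hx, -, he, -⟩ := ift_mfd isOpen_univ h1.contMDiffOn (mem_univ x)
    (by rw [h2]; exact ne_of_gt h)
  exact ⟨e.source, e.open_source.mem_nhds hx, e.injOn.congr he.symm⟩

variable {T : Type} [TopologicalSpace T] {p : T → c.M} {a : T → E 5 →L[ℝ] E c.N} {S : Set T}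

/-- the orientation of a frame is locally constant -/
theorem Sgn.eventually {t₀ : T} (hp : ContinuousWithinAt p S t₀) (ha : ContinuousWithinAt a S t₀)
    (hP : ∀ t ∈ S, ∀ u, c.P (p t) (a t u) = a t u) (h : c.Sgn (p t₀) (a t₀) ε) :
    ∀ᶠ t in 𝓝[S] t₀, c.Sgn (p t) (a t) ε := by
  obtain ⟨C, hC⟩ := exists_cof (p t₀)
  have h1 : ∀ᶠ t in 𝓝[S] t₀, c.Cof (p t) C :=
    (hp.prodMk (continuousWithinAt_const (b := C))).eventually (c.isOpen_cof.mem_nhds hC)
  have h2 : ContinuousWithinAt (fun t => ((ε : ℤ) : ℝ) * (C.comp (a t)).det) S t₀ :=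
    continuousWithinAt_const.mul (sgn_det_cont (continuousWithinAt_const.clm_comp ha))
  have h3 := h2.eventually (lt_mem_nhds (hC.sgn_iff.1 h).2)
  filter_upwards [h1, h3, self_mem_nhdsWithin] with t h1 h3 ht
  exact h1.sgn_iff.2 ⟨hP t ht, h3⟩

theorem Sgn.of_preconnected (hS : IsPreconnected S) (hp : ContinuousOn p S) (ha : ContinuousOn a S)
    (hP : ∀ t ∈ S, ∀ u, c.P (p t) (a t u) = a t u) (hi : ∀ t ∈ S, ∀ u, a t u = 0 → u = 0)
    {t₀ : T} (h0 : t₀ ∈ S) (h : c.Sgn (p t₀) (a t₀) ε) : ∀ t ∈ S, c.Sgn (p t) (a t) ε := by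
  classical
  let f : T → ℤ := fun t => if c.Sgn (p t) (a t) ε then 1 else 0
  have hf : ContinuousOn f S := by
    intro t ht
    obtain ⟨η, hη⟩ := exists_sgn (hP t ht) (hi t ht)
    have h1 := Sgn.eventually (hp t ht) (ha t ht) hP hη
    refine (continuousWithinAt_const (b := f t)).congr_of_eventuallyEq ?_ rfl
    filter_upwards [h1] with s hs
    refine if_congr ⟨fun h' => ?_, fun h' => ?_⟩ rfl rfl
    · rwa [h'.unique hs]
    · rwa [h'.unique hη]
  intro t ht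
  have h2 : f t₀ = f t := hS.constant hf h0 ht
  by_contra h3
  simp [f, h, h3] at h2

/-- The frame dual to a continuous coframe. Sketch. `a t` is the unique map with `P a = a`,
`C a = 1`. Near `t₀` it equals `P (p t) ∘ a₀ ∘ (C t ∘ P (p t) ∘ a₀)⁻¹`, `a₀ = a t₀`. -/
theorem exists_frame_of_cof {k : T → E c.N →L[ℝ] E 5} (hp : ContinuousOn p S)
    (hk : ContinuousOn k S) (h : ∀ t ∈ S, c.Cof (p t) (k t)) :
    ∃ a : T → E 5 →L[ℝ] E c.N, ContinuousOn a S ∧
      ∀ t ∈ S, c.Sgn (p t) (a t) 1 ∧ ∀ u, k t (a t u) = u := by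
  let a : T → E 5 →L[ℝ] E c.N := fun t =>
    (c.dι (p t)).comp (Ring.inverse ((k t).comp (c.dι (p t))))
  have ha : ∀ t ∈ S, ∀ u, k t (a t u) = u := fun t ht u => sgn_inv_right (ne_of_gt (h t ht)) u
  have hP : ∀ t u, c.P (p t) (a t u) = a t u := fun t u => c.P_dι _ _
  refine ⟨a, fun t₀ h0 => ?_, fun t ht => ⟨(h t ht).sgn_iff.2 ⟨hP t, ?_⟩, ha t ht⟩⟩
  · let m : T → E 5 →L[ℝ] E c.N := fun t => (c.P (p t)).comp (a t₀)
    have hm : ContinuousWithinAt m S t₀ :=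
      (c.continuous_P.continuousAt.comp_continuousWithinAt (hp t₀ h0)).clm_comp
        continuousWithinAt_const
    have hb : ContinuousWithinAt (fun t => (k t).comp (m t)) S t₀ := (hk t₀ h0).clm_comp hm
    have h1 : ((k t₀).comp (m t₀)).det ≠ 0 := by
      rw [sgn_det_one (B := (k t₀).comp (m t₀)) fun u => by
        show k t₀ (c.P (p t₀) (a t₀ u)) = u
        rw [hP, ha t₀ h0]]
      exact one_ne_zero
    have key : ∀ t ∈ S, ((k t).comp (m t)).det ≠ 0 →
        a t = (m t).comp (Ring.inverse ((k t).comp (m t))) := by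
      intro t ht hd
      refine ContinuousLinearMap.ext fun u => sub_eq_zero.1 ((h t ht).inj ?_ ?_)
      · rw [map_sub, hP]
        congr 1
        exact congrArg (fun L : E c.N →L[ℝ] E c.N => L _) (c.P_mul_P (p t))
      · rw [map_sub, ha t ht, sub_eq_zero]
        exact (sgn_inv_right hd u).symm
    refine (hm.clm_comp (sgn_inv_cont hb h1)).congr_of_eventuallyEq ?_ (key t₀ h0 h1)
    filter_upwards [(sgn_det_cont hb).eventually_ne h1, self_mem_nhdsWithin] with t hd ht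
    exact key t ht hd
  · rw [sgn_det_one (B := (k t).comp (a t)) (ha t ht)]
    simp

/-- a coframe for a continuous positive frame: `(a† a)⁻¹ a† ∘ P` -/
theorem exists_cof_of_frame (hp : ContinuousOn p S) (ha : ContinuousOn a S)
    (h : ∀ t ∈ S, c.Sgn (p t) (a t) 1) :
    ∃ k : T → E c.N →L[ℝ] E 5, ContinuousOn k S ∧
      ∀ t ∈ S, c.Cof (p t) (k t) ∧ (∀ u, k t (a t u) = u) ∧ ∀ w, a t (k t w) = c.P (p t) w := by
  let g : T → E 5 →L[ℝ] E 5 := fun t => (ContinuousLinearMap.adjoint (a t)).comp (a t)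
  have hg : ∀ t ∈ S, (g t).det ≠ 0 := fun t ht => sgn_det_ne fun u hu => by
    have h1 := ContinuousLinearMap.adjoint_inner_left (a t) u (a t u)
    have h2 : ContinuousLinearMap.adjoint (a t) (a t u) = 0 := hu
    rw [h2, inner_zero_left] at h1
    exact (h t ht).inj ((inner_self_eq_zero.1 h1.symm).trans (map_zero _).symm)
  have had : ContinuousOn (fun t => ContinuousLinearMap.adjoint (a t)) S :=
    ContinuousLinearMap.adjoint.continuous.comp_continuousOn ha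
  let k : T → E c.N →L[ℝ] E 5 := fun t =>
    (Ring.inverse (g t)).comp ((ContinuousLinearMap.adjoint (a t)).comp (c.P (p t)))
  have hk : ∀ t ∈ S, ∀ u, k t (a t u) = u := fun t ht u => by
    show Ring.inverse (g t) (ContinuousLinearMap.adjoint (a t) (c.P (p t) (a t u))) = u
    rw [(h t ht).P_eq]
    exact sgn_inv_left (hg t ht) u
  refine ⟨k, fun t ht => (sgn_inv_cont ((had.clm_comp ha) t ht) (hg t ht)).clm_comp
    ((had.clm_comp (c.continuous_P.comp_continuousOn hp)) t ht), fun t ht =>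
    ⟨(h t ht).cof_iff.2 ?_, hk t ht, fun w => ?_⟩⟩
  · rw [sgn_det_one (B := (k t).comp (a t)) (hk t ht)]
    exact one_pos
  · obtain ⟨u, hu⟩ := (h t ht).surj (w := c.P (p t) w)
      (congrArg (fun L : E c.N →L[ℝ] E c.N => L w) (c.P_mul_P (p t)))
    have h1 : k t w = u := by
      show Ring.inverse (g t) (ContinuousLinearMap.adjoint (a t) (c.P (p t) w)) = u
      rw [← hu]
      exact sgn_inv_left (hg t ht) u
    rw [h1, hu]

end Ctx

end Pool.Agent.CSP
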