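import Pool.Agent.Lib.MP_436e1a_gt.Lnk
import Pool.Agent.Lib.MP_436e1a_gt.B.Sgn
import Pool.Agent.Lib.MP_436e1a_gt.A.Transport

/-! Coframes along homotopies. -/

open scoped Manifold ContDiff Topology
open Set

namespace Pool.Agent.CSP

namespace Ctx

variable {c : Ctx} {V V' : Type} [NormedAddCommGroup V] [NormedSpace ℝ V] {K : Set V}

theorem Flat.comp [TopologicalSpace V'] {a : V → c.Y} (h : c.Flat a K) {φ : V' → V} {K' : Set V'}
    (hφ : ContinuousOn φ K') (hm : MapsTo φ K' K) : c.Flat (fun v => a (φ v)) K' := by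
  obtain ⟨C, hC, h⟩ := h
  exact ⟨fun v => C (φ v), hC.comp hφ hm, fun x hx => h _ (hm hx)⟩

/-- only the projection to `M` matters -/
theorem Flat.congr {a a' : V → c.Y} (h : c.Flat a K) (he : ∀ v ∈ K, c.q (a' v) = c.q (a v)) :
    c.Flat a' K := by
  obtain ⟨C, hC, h⟩ := h
  exact ⟨C, hC, fun x hx => by rw [he x hx]; exact h x hx⟩

/-- Sketch. Take the frame `a₀` dual to the coframe, `Θ` from `transport2` (`n = 0`, `Q = 0`) for
`P (q (H p))`; `Θ p ∘ a₀ p.2` is a frame, positive by `Sgn.of_preconnected` along `Icc 0 1`;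
`exists_cof_of_frame`. -/
theorem Flat.htp (hK : IsCompact K) {H : ℝ × V → c.Y} (hH : ContinuousOn H (Icc 0 1 ×ˢ K))
    (h : c.Flat (fun v => H (0, v)) K) : c.Flat H (Icc 0 1 ×ˢ K) := by
  obtain ⟨C, hC, h⟩ := h
  have hq : ContinuousOn (fun p => c.q (H p)) (Icc 0 1 ×ˢ K) :=
    c.continuous_q.comp_continuousOn hH
  have h0 : ∀ v ∈ K, ((0 : ℝ), v) ∈ Icc (0 : ℝ) 1 ×ˢ K := fun v hv => ⟨⟨le_rfl, zero_le_one⟩, hv⟩
  have hq0 : ContinuousOn (fun v => c.q (H (0, v))) K :=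
    hq.comp (Continuous.prodMk_right (0 : ℝ)).continuousOn h0
  obtain ⟨a₀, ha₀, ha⟩ := exists_frame_of_cof (p := fun v => c.q (H (0, v))) hq0 hC h
  have hP : ContinuousOn (fun p => c.P (c.q (H p))) (Icc 0 1 ×ˢ K) :=
    c.continuous_P.comp_continuousOn hq
  obtain ⟨Θ, hΘ, hΘ0, hΘc, hΘu⟩ := transport2 (V := V) (W := E c.N) 0 (convex_Icc (0 : ℝ) 1)
    subset_rfl hK subset_rfl (P := fun p => c.P (c.q (H p))) (Q := fun _ => 0)
    (contDiffOn_zero.2 hP) contDiffOn_const (fun p _ => c.P_mul_P _) (fun p _ => mul_zero _)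
    (fun p _ => mul_zero _) (fun p _ => zero_mul _)
  rw [contDiffOn_zero] at hΘ
  have hA : ContinuousOn (fun p : ℝ × V => (Θ p).comp (a₀ p.2)) (Icc 0 1 ×ˢ K) :=
    hΘ.clm_comp (ha₀.comp continuous_snd.continuousOn fun p hp => hp.2)
  have hs : ∀ p ∈ Icc (0 : ℝ) 1 ×ˢ K, c.Sgn (c.q (H p)) ((Θ p).comp (a₀ p.2)) 1 := by
    rintro ⟨t, v⟩ ⟨ht, hv⟩
    have hm : MapsTo (fun s : ℝ => (s, v)) (Icc 0 1) (Icc (0 : ℝ) 1 ×ˢ K) := fun s hs => ⟨hs, hv⟩
    have hc : ContinuousOn (fun s : ℝ => (s, v)) (Icc 0 1) :=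
      (Continuous.prodMk_left v).continuousOn
    refine Sgn.of_preconnected (p := fun s : ℝ => c.q (H (s, v)))
      (a := fun s : ℝ => (Θ (s, v)).comp (a₀ v)) isPreconnected_Icc (hq.comp hc hm)
      (hA.comp hc hm) ?_ ?_ (t₀ := 0) ⟨le_rfl, zero_le_one⟩ ?_ t ht
    · intro s hs u
      have e := congrArg (fun L : E c.N →L[ℝ] E c.N => L (a₀ v u)) (hΘc (s, v) (hm hs)).1
      simp only [ContinuousLinearMap.mul_apply] at e
      rw [(ha v hv).1.P_eq u] at e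
      exact e
    · intro s hs u hu
      obtain ⟨w, hw⟩ := hΘu (s, v) (hm hs)
      have e : a₀ v u = 0 := by
        have e1 : ((↑w⁻¹ : E c.N →L[ℝ] E c.N) * (↑w : E c.N →L[ℝ] E c.N)) (a₀ v u) = a₀ v u := by
          rw [w.inv_mul]; rfl
        rw [ContinuousLinearMap.mul_apply, hw] at e1
        have e2 : Θ (s, v) (a₀ v u) = 0 := hu
        rw [e2, map_zero] at e1
        exact e1.symm
      exact (ha v hv).1.inj (e.trans (map_zero _).symm)
    · have e : (Θ (0, v)).comp (a₀ v) = a₀ v := by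
        rw [hΘ0 v hv]; rfl
      rw [e]
      exact (ha v hv).1
  obtain ⟨k, hk, hk'⟩ := exists_cof_of_frame (p := fun p => c.q (H p)) hq hA hs
  exact ⟨k, hk, fun p hp => (hk' p hp).1⟩

theorem Flat.of_htpOn (hK : IsCompact K) {a b : V → c.Y} (h : c.Flat a K) (H : HtpOn K a b) :
    c.Flat b K := by
  obtain ⟨H, hH, h0, h1⟩ := H
  have h2 : c.Flat (fun v => H (0, v)) K := h.congr fun v hv => by rw [h0 v hv]
  have h3 : c.Flat (fun v => H (1, v)) K :=
    (Flat.htp hK hH h2).comp (φ := fun v : V => ((1 : ℝ), v))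
      (Continuous.prodMk_right (1 : ℝ)).continuousOn fun v hv => ⟨⟨zero_le_one, le_rfl⟩, hv⟩
  exact h3.congr fun v hv => by rw [h1 v hv]

/-- contract to the centre -/
theorem flat_star (hK : IsCompact K) {x₀ : V} (hs : StarConvex ℝ x₀ K) {a : V → c.Y}
    (ha : ContinuousOn a K) : c.Flat a K := by
  obtain ⟨C, hC⟩ := exists_cof (c.q (a x₀))
  have h : c.Flat (fun _ : V => a x₀) K := ⟨fun _ => C, continuousOn_const, fun _ _ => hC⟩
  refine h.of_htpOn hK ⟨fun p => a ((1 - p.1) • x₀ + p.1 • p.2), ?_, ?_, ?_⟩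
  · refine ha.comp (Continuous.continuousOn (by fun_prop)) ?_
    rintro ⟨t, v⟩ ⟨ht, hv⟩
    exact hs hv (sub_nonneg.2 ht.2) ht.1 (by ring)
  · intro x _
    simp
  · intro x _
    simp

end Ctx

end Pool.Agent.CSP
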