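import Pool.Agent.Lib.MP_436e1a_gt.Lnk
import Pool.Agent.Lib.MP_436e1a_gt.B.Sgn
import Pool.Agent.Lib.MP_436e1a_gt.A.TubeL
import Pool.Agent.Lib.MP_436e1a_gt.A.LocInj

/-! Basic facts on links, families, crossings and framed links. -/

open scoped Manifold ContDiff Topology RealInnerProductSpace
open Set

namespace Pool.Agent.CSP

theorem lnk_fderiv_congr {V W : Type} [NormedAddCommGroup V] [NormedSpace ℝ V]
    [NormedAddCommGroup W] [NormedSpace ℝ W] {F F' : V → W} {φ : V → V} {p u : V} (hp : φ p = p)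
    (hφ : DifferentiableAt ℝ φ p) (hu : fderiv ℝ φ p u = u) (hF : DifferentiableAt ℝ F p)
    (hF' : DifferentiableAt ℝ F' p) (he : ∀ᶠ y in 𝓝 p, F' (φ y) = F (φ y)) :
    fderiv ℝ F' p u = fderiv ℝ F p u := by
  have h1 : ∀ G : V → W, DifferentiableAt ℝ G p → fderiv ℝ (G ∘ φ) p u = fderiv ℝ G p u := by
    intro G hG
    rw [fderiv_comp p (by rwa [hp]) hφ, hp, ContinuousLinearMap.comp_apply, hu]
  have h2 : F' ∘ φ =ᶠ[𝓝 p] F ∘ φ := he
  rw [← h1 F hF, ← h1 F' hF', h2.fderiv_eq]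

theorem lnk_diff_nrm {x : E 3} (h0 : x ≠ 0) : DifferentiableAt ℝ (nrm : E 3 → E 3) x :=
  (contDiffOn_nrm.contDiffAt (isOpen_compl_singleton.mem_nhds h0)).differentiableAt (by simp)

theorem lnk_fderiv_rfb (b : Bool) (x v : E 3) : fderiv ℝ (rfb b) x v = rfb b v := by
  cases b
  · have : rfb false = fun y => y := rfl
    rw [this, fderiv_fun_id]
    rfl
  · exact fderiv_rf3 x v

theorem lnk_inner_rfb (b : Bool) (x v : E 3) : ⟪rfb b x, rfb b v⟫ = ⟪x, v⟫ := by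
  cases b
  · rfl
  · simp [rfb, rf3, inner_E3]

theorem lnk_inner_OB {x v w : E 3} (h : OB x v w) (s t : ℝ) : ⟪x, s • v + t • w⟫ = 0 := by
  rw [inner_add_right, inner_smul_right, inner_smul_right, h.1, h.2.1]
  simp

theorem lnk_det_blk (a b c d a' b' c' d' : ℝ) :
    (fr ![(!₂[a, b, 0, 0, 0] : E 5), !₂[c, d, 0, 0, 0], !₂[0, 0, a', b', 0], !₂[0, 0, c', d', 0],
      !₂[0, 0, 0, 0, 1]]).det = (a * d - b * c) * (a' * d' - b' * c') := by
  rw [det_fr, ← Matrix.det_transpose]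
  have : (Matrix.of fun i k => (![(!₂[a, b, 0, 0, 0] : E 5), !₂[c, d, 0, 0, 0], !₂[0, 0, a', b', 0],
      !₂[0, 0, c', d', 0], !₂[0, 0, 0, 0, 1]] k) i).transpose =
      !![a, b, 0, 0, 0; c, d, 0, 0, 0; 0, 0, a', b', 0; 0, 0, c', d', 0; 0, 0, 0, 0, 1] := by
    ext i j
    fin_cases i <;> fin_cases j <;> rfl
  rw [this]
  simp [Matrix.det_succ_row_zero, Fin.sum_univ_succ, Fin.succAbove]
  ring

theorem lnk_det_swp :
    (fr ![(!₂[0, 0, -1, 0, 0] : E 5), !₂[0, 0, 0, -1, 0], !₂[-1, 0, 0, 0, 0], !₂[0, -1, 0, 0, 0],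
      !₂[0, 0, 0, 0, -1]]).det = -1 := by
  rw [det_fr, ← Matrix.det_transpose]
  have : (Matrix.of fun i k => (![(!₂[0, 0, -1, 0, 0] : E 5), !₂[0, 0, 0, -1, 0], !₂[-1, 0, 0, 0, 0],
      !₂[0, -1, 0, 0, 0], !₂[0, 0, 0, 0, -1]] k) i).transpose =
      !![0, 0, -1, 0, 0; 0, 0, 0, -1, 0; -1, 0, 0, 0, 0; 0, -1, 0, 0, 0; 0, 0, 0, 0, -1] := by
    ext i j
    fin_cases i <;> fin_cases j <;> rfl
  rw [this]
  simp [Matrix.det_succ_row_zero, Fin.sum_univ_succ, Fin.succAbove]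

namespace Ctx

variable {c : Ctx} {ι ι' : Type} {a a' : E 3 → c.Y} {L L' : ι → E 3 → c.Y}
  {f f' g g' : ℝ × E 3 → c.Y} {F : ι → ℝ × E 3 → c.Y} {h h' : ι → E 5 → c.Y}

/-- tangential derivatives depend only on the values on the sphere (compose with `nrm`) -/
theorem fderiv_congr_S2 {x v : E 3} (hx : x ∈ S2) (hv : ⟪x, v⟫ = 0)
    (ha : DifferentiableAt ℝ (c.am a) x) (ha' : DifferentiableAt ℝ (c.am a') x)
    (he : ∀ᶠ y in 𝓝[S2] x, c.q (a' y) = c.q (a y)) :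
    fderiv ℝ (c.am a') x v = fderiv ℝ (c.am a) x v := by
  have h0 := ne_zero_of_S2 hx
  have hn := lnk_diff_nrm h0
  refine lnk_fderiv_congr (φ := nrm) (nrm_of_S2 hx) hn ?_ ha ha' ?_
  · rw [fderiv_nrm (by simpa using hx), hv, zero_smul, sub_zero]
  · have ht : Filter.Tendsto (nrm : E 3 → E 3) (𝓝 x) (𝓝[S2] x) := by
      refine tendsto_nhdsWithin_iff.2 ⟨?_, ?_⟩
      · have := hn.continuousAt.tendsto
        rwa [nrm_of_S2 hx] at this
      · filter_upwards [isOpen_compl_singleton.mem_nhds h0] with y hy using nrm_mem hy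
    filter_upwards [ht.eventually he] with y hy using c.am_eq_iff.2 hy

/-- the same for families, at an interior time -/
theorem fderiv_congr_fam {t τ : ℝ} {x v : E 3} (hx : x ∈ S2) (hv : ⟪x, v⟫ = 0)
    (hf : DifferentiableAt ℝ (c.am f) (t, x)) (hf' : DifferentiableAt ℝ (c.am f') (t, x))
    (he : ∀ᶠ p in 𝓝[univ ×ˢ S2] (t, x), c.q (f' p) = c.q (f p)) :
    fderiv ℝ (c.am f') (t, x) (τ, v) = fderiv ℝ (c.am f) (t, x) (τ, v) := by
  have h0 := ne_zero_of_S2 hx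
  have hn := lnk_diff_nrm h0
  have hd : HasFDerivAt (fun p : ℝ × E 3 => (p.1, nrm p.2))
      ((ContinuousLinearMap.fst ℝ ℝ (E 3)).prod
        ((fderiv ℝ nrm x).comp (ContinuousLinearMap.snd ℝ ℝ (E 3)))) (t, x) :=
    hasFDerivAt_fst.prodMk (HasFDerivAt.comp (f := Prod.snd) (g := nrm) (t, x) hn.hasFDerivAt
      hasFDerivAt_snd)
  have hp : (fun p : ℝ × E 3 => (p.1, nrm p.2)) (t, x) = (t, x) := by
    simp only [nrm_of_S2 hx]
  refine lnk_fderiv_congr hp hd.differentiableAt ?_ hf hf' ?_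
  · rw [hd.fderiv]
    simp only [ContinuousLinearMap.prod_apply, ContinuousLinearMap.comp_apply,
      ContinuousLinearMap.coe_fst', ContinuousLinearMap.coe_snd']
    rw [fderiv_nrm (by simpa using hx), hv, zero_smul, sub_zero]
  · have ht : Filter.Tendsto (fun p : ℝ × E 3 => (p.1, nrm p.2)) (𝓝 (t, x))
        (𝓝[univ ×ˢ S2] (t, x)) := by
      refine tendsto_nhdsWithin_iff.2 ⟨?_, ?_⟩
      · have := hd.continuousAt.tendsto
        simpa only [nrm_of_S2 hx] using this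
      · have h1 : ∀ᶠ p : ℝ × E 3 in 𝓝 (t, x), p.2 ≠ 0 :=
          continuous_snd.continuousAt.eventually (isOpen_compl_singleton.mem_nhds h0)
        filter_upwards [h1] with p hp using ⟨mem_univ _, nrm_mem hp⟩
    filter_upwards [ht.eventually he] with y hy using c.am_eq_iff.2 hy

theorem fderiv_slice {V : Type} [NormedAddCommGroup V] [NormedSpace ℝ V] {f : ℝ × V → c.Y} {t : ℝ}
    {x : V} (hf : DifferentiableAt ℝ (c.am f) (t, x)) (v : V) :
    fderiv ℝ (c.am fun y => f (t, y)) x v = fderiv ℝ (c.am f) (t, x) (0, v) := by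
  have h : HasFDerivAt (c.am fun y => f (t, y))
      ((fderiv ℝ (c.am f) (t, x)).comp (ContinuousLinearMap.inr ℝ ℝ V)) x :=
    HasFDerivAt.comp x hf.hasFDerivAt (hasFDerivAt_prodMk_right t x)
  rw [h.fderiv]
  rfl

theorem SmNear.slice {V : Type} [NormedAddCommGroup V] [NormedSpace ℝ V] {f : ℝ × V → c.Y}
    {J : Set ℝ} {K : Set V} (hf : c.SmNear f (J ×ˢ K)) {t : ℝ} (ht : t ∈ J) :
    c.SmNear (fun y => f (t, y)) K :=
  hf.comp (φ := fun y => (t, y)) isOpen_univ (subset_univ _)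
    (contDiff_const.prodMk contDiff_id).contDiffOn fun _ hy => ⟨ht, hy⟩

theorem SmNear.const {V : Type} [NormedAddCommGroup V] [NormedSpace ℝ V] {a : V → c.Y}
    {K : Set V} (ha : c.SmNear a K) (J : Set ℝ) : c.SmNear (fun p : ℝ × V => a p.2) (J ×ˢ K) :=
  ha.comp (φ := fun p : ℝ × V => p.2) isOpen_univ (subset_univ _) contDiff_snd.contDiffOn
    fun _ hp => hp.2

/-- a map smooth near the sphere, composed with `nrm`, is smooth off the origin -/
theorem SmNear.nrm (ha : c.SmNear a S2) : c.SmOn (fun x => a (nrm x)) {0}ᶜ := by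
  obtain ⟨O, -, hK, hO⟩ := ha
  exact hO.comp contDiffOn_nrm fun _ hx => hK (nrm_mem hx)

theorem Imm.congr (hi : c.Imm a) (ha : c.SmNear a S2) (ha' : c.SmNear a' S2)
    (he : ∀ x ∈ S2, c.q (a' x) = c.q (a x)) : c.Imm a' := by
  intro x hx v hv h0
  refine hi x hx v hv ?_
  rw [← fderiv_congr_S2 hx hv (ha.differentiableAt hx) (ha'.differentiableAt hx)
    (eventually_nhdsWithin_of_forall he)]
  exact h0

theorem Imm.smul (hi : c.Imm a) (γ : c.G) : c.Imm fun x => γ • a x := by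
  intro x hx v hv h0
  rw [c.am_smul] at h0
  exact hi x hx v hv h0

theorem reg_iff (hf : c.SmNear f (Icc 0 1 ×ˢ S2)) : c.Reg f ↔
    ∀ t ∈ Icc (0 : ℝ) 1, ∀ x ∈ S2, ∀ v : E 3, ⟪x, v⟫ = 0 →
      fderiv ℝ (c.am f) (t, x) (0, v) = 0 → v = 0 := by
  refine forall₂_congr fun t ht => forall₂_congr fun x hx => forall₂_congr fun v _ => ?_
  rw [fderiv_slice (hf.differentiableAt (mk_mem_prod ht hx))]

theorem Link.congr (hL : c.Link L) (hs : ∀ i, c.SmNear (L' i) S2)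
    (he : ∀ i, ∀ x ∈ S2, L' i x = L i x) : c.Link L' := by
  refine ⟨hs, fun i => (hL.imm i).congr (hL.sm i) (hs i) fun x hx => by rw [he i x hx],
    fun i j x hx y hy h => hL.inj i j x hx y hy ?_⟩
  rwa [← he i x hx, ← he j y hy]

theorem Link.comp (hL : c.Link L) {e : ι' → ι} (he : Function.Injective e) :
    c.Link fun i => L (e i) :=
  ⟨fun i => hL.sm (e i), fun i => hL.imm (e i), fun _ _ x hx y hy h =>
    ⟨he (hL.inj _ _ x hx y hy h).1, (hL.inj _ _ x hx y hy h).2⟩⟩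

theorem Link.continuousOn (hL : c.Link L) (i : ι) : ContinuousOn (L i) S2 :=
  (hL.sm i).continuousOn

theorem Link.dj (hL : c.Link L) {i j : ι} {γ : c.G} (hne : ¬ (i = j ∧ γ = 1)) :
    Dj (L i) fun y => γ • L j y := by
  intro x hx y hy h
  have h1 : L i x = γ • L j y := h
  obtain ⟨rfl, rfl⟩ := hL.inj i j x hx y hy (by rw [h1, c.q_smul])
  exact hne ⟨rfl, c.smul_eq_self h1.symm⟩

/-- reflect some components -/
theorem Link.rfb (hL : c.Link L) (b : ι → Bool) : c.Link fun i x => L i (rfb (b i) x) := by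
  have hm : ∀ (b : Bool) (x : E 3), x ∈ S2 → CSP.rfb b x ∈ S2 := fun b x hx => by
    simpa [norm_rfb] using hx
  refine ⟨fun i => (hL.sm i).comp isOpen_univ (subset_univ _) (contDiff_rfb _).contDiffOn
    fun x hx => hm _ x hx, fun i x hx v hv h0 => ?_, fun i j x hx y hy h => ?_⟩
  · have hd : DifferentiableAt ℝ (CSP.rfb (b i)) x :=
      ((contDiff_rfb (b i)).differentiable (by simp)) x
    have h1 : fderiv ℝ (c.am (L i) ∘ CSP.rfb (b i)) x v = 0 := h0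
    rw [fderiv_comp x ((hL.sm i).differentiableAt (hm _ x hx)) hd,
      ContinuousLinearMap.comp_apply, lnk_fderiv_rfb] at h1
    have h2 := hL.imm i _ (hm _ x hx) _ (by rw [lnk_inner_rfb, hv]) h1
    rw [← norm_eq_zero, ← norm_rfb (b i), h2, norm_zero]
  · obtain ⟨rfl, h2⟩ := hL.inj i j _ (hm _ x hx) _ (hm _ y hy) h
    refine ⟨rfl, ?_⟩
    rw [← rfb_rfb (b i) x, h2, rfb_rfb]

theorem Fam.continuousOn (hF : c.Fam F) (i : ι) : ContinuousOn (F i) (Icc 0 1 ×ˢ S2) :=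
  (hF i).continuousOn

theorem Link.iso_const (hL : c.Link L) : c.Iso fun i p => L i p.2 :=
  ⟨fun i => (hL.sm i).const _, fun _ _ => hL⟩

theorem lnk_crossFr (f g : ℝ × E 3 → c.Y) (t : ℝ) (x y v₁ v₂ w₁ w₂ : E 3) (u : E 5) :
    c.crossFr f g t x y v₁ v₂ w₁ w₂ u =
      fderiv ℝ (c.am f) (t, x) (u 4, u 0 • v₁ + u 1 • v₂) -
        fderiv ℝ (c.am g) (t, y) (u 4, u 2 • w₁ + u 3 • w₂) := by
  have h : ∀ (s a b : ℝ) (v w : E 3), ((s, a • v + b • w) : ℝ × E 3) =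
      a • ((0 : ℝ), v) + b • ((0 : ℝ), w) + s • ((1 : ℝ), (0 : E 3)) := fun s a b v w => by
    simp
  rw [h, h, crossFr, fr_apply, Fin.sum_univ_five]
  simp only [map_add, map_smul, Matrix.cons_val]
  module

/-- the sign of a crossing does not depend on the oriented bases (`OB.change`, `Sgn.comp`) -/
theorem Cross.sgn {ε : ℤˣ} {t : ℝ} {x y : E 3} (hc : c.Cross f g ε t x y) {v₁ v₂ w₁ w₂ : E 3}
    (hv : OB x v₁ v₂) (hw : OB y w₁ w₂) :
    c.Sgn (c.q (f (t, x))) (c.crossFr f g t x y v₁ v₂ w₁ w₂) ε := by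
  obtain ⟨-, v₁', v₂', w₁', w₂', hv', hw', hs⟩ := hc
  obtain ⟨a₁, b₁, c₁, d₁, rfl, rfl, h₁⟩ := hv'.change hv
  obtain ⟨a₂, b₂, c₂, d₂, rfl, rfl, h₂⟩ := hw'.change hw
  have h3 := hs.comp (ε' := 1) (B := fr ![!₂[a₁, b₁, 0, 0, 0], !₂[c₁, d₁, 0, 0, 0],
    !₂[0, 0, a₂, b₂, 0], !₂[0, 0, c₂, d₂, 0], !₂[0, 0, 0, 0, 1]]) (by
      rw [lnk_det_blk]
      simpa using mul_pos h₁ h₂)
  rw [mul_one] at h3
  convert h3 using 1
  refine ContinuousLinearMap.ext fun u => ?_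
  rw [ContinuousLinearMap.comp_apply, lnk_crossFr, lnk_crossFr]
  simp only [fr_apply, Fin.sum_univ_five]
  congr 3
  · simp
  · simp
    module
  · simp
  · simp
    module

theorem Cross.unique {ε ε' : ℤˣ} {t : ℝ} {x y : E 3} (hc : c.Cross f g ε t x y)
    (hc' : c.Cross f g ε' t x y) : ε = ε' := by
  obtain ⟨-, v₁, v₂, w₁, w₂, hv, hw, hs⟩ := hc'
  exact (hc.sgn hv hw).unique hs

/-- exchange of the two sheets: the frame is composed with `(a, b, τ) ↦ -(b, a, τ)`, determinant `-1` -/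
theorem Cross.symm {ε : ℤˣ} {t : ℝ} {x y : E 3} (hc : c.Cross f g ε t x y) :
    c.Cross g f (-ε) t y x := by
  obtain ⟨he, v₁, v₂, w₁, w₂, hv, hw, hs⟩ := hc
  refine ⟨he.symm, w₁, w₂, v₁, v₂, hw, hv, ?_⟩
  have h3 := hs.comp (ε' := -1) (B := fr ![!₂[0, 0, -1, 0, 0], !₂[0, 0, 0, -1, 0],
    !₂[-1, 0, 0, 0, 0], !₂[0, -1, 0, 0, 0], !₂[0, 0, 0, 0, -1]]) (by
      rw [lnk_det_swp]
      simp)
  rw [mul_neg_one, he] at h3
  convert h3 using 1
  refine ContinuousLinearMap.ext fun u => ?_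
  rw [ContinuousLinearMap.comp_apply, lnk_crossFr, lnk_crossFr, ← neg_sub, sub_eq_add_neg,
    neg_add, ← map_neg, ← sub_eq_add_neg, ← map_neg]
  simp only [fr_apply, Fin.sum_univ_five]
  congr 2
  · simp [add_comm]
  · simp [add_comm]

theorem Cross.smul {ε : ℤˣ} {t : ℝ} {x y : E 3} (hc : c.Cross f g ε t x y) (γ : c.G) :
    c.Cross (fun p => γ • f p) (fun p => γ • g p) ε t x y := by
  obtain ⟨he, v₁, v₂, w₁, w₂, hv, hw, hs⟩ := hc
  refine ⟨by simp only [he], v₁, v₂, w₁, w₂, hv, hw, ?_⟩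
  unfold crossFr at hs ⊢
  rw [c.am_smul, c.am_smul, c.q_smul]
  exact hs

theorem Cross.congr {ε : ℤˣ} {t : ℝ} {x y : E 3} (hc : c.Cross f g ε t x y) (hx : x ∈ S2)
    (hy : y ∈ S2) (hf : DifferentiableAt ℝ (c.am f) (t, x)) (hf' : DifferentiableAt ℝ (c.am f') (t, x))
    (hg : DifferentiableAt ℝ (c.am g) (t, y)) (hg' : DifferentiableAt ℝ (c.am g') (t, y))
    (e₁ : ∀ᶠ p in 𝓝[univ ×ˢ S2] (t, x), f' p = f p) (e₂ : ∀ᶠ p in 𝓝[univ ×ˢ S2] (t, y), g' p = g p) :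
    c.Cross f' g' ε t x y := by
  obtain ⟨he, v₁, v₂, w₁, w₂, hv, hw, hs⟩ := hc
  have h1 : f' (t, x) = f (t, x) := e₁.self_of_nhdsWithin (mk_mem_prod (mem_univ _) hx)
  have h2 : g' (t, y) = g (t, y) := e₂.self_of_nhdsWithin (mk_mem_prod (mem_univ _) hy)
  refine ⟨by rw [h1, h2, he], v₁, v₂, w₁, w₂, hv, hw, ?_⟩
  rw [h1]
  convert hs using 1
  refine ContinuousLinearMap.ext fun u => ?_
  rw [lnk_crossFr, lnk_crossFr,
    fderiv_congr_fam hx (lnk_inner_OB hv _ _) hf hf' (e₁.mono fun p hp => by rw [hp]),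
    fderiv_congr_fam hy (lnk_inner_OB hw _ _) hg hg' (e₂.mono fun p hp => by rw [hp])]

/-- a coincidence is a crossing iff the linearised equation has only the trivial solution -/
theorem exists_cross_iff {t : ℝ} {x y : E 3} (hx : x ∈ S2) (hy : y ∈ S2)
    (hf : DifferentiableAt ℝ (c.am f) (t, x)) (hg : DifferentiableAt ℝ (c.am g) (t, y))
    (he : f (t, x) = g (t, y)) : (∃ ε, c.Cross f g ε t x y) ↔
      ∀ (τ : ℝ) (v w : E 3), ⟪x, v⟫ = 0 → ⟪y, w⟫ = 0 →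
        fderiv ℝ (c.am f) (t, x) (τ, v) = fderiv ℝ (c.am g) (t, y) (τ, w) →
        τ = 0 ∧ v = 0 ∧ w = 0 := by
  constructor
  · rintro ⟨ε, -, v₁, v₂, w₁, w₂, hv, hw, hs⟩ τ v w h1 h2 h3
    obtain ⟨a₁, b₁, rfl⟩ := hv.span h1
    obtain ⟨a₂, b₂, rfl⟩ := hw.span h2
    have h4 : (!₂[a₁, b₁, a₂, b₂, τ] : E 5) = 0 := by
      apply hs.inj
      rw [lnk_crossFr, map_zero, sub_eq_zero]
      simpa using h3
    have h5 : ∀ k, (!₂[a₁, b₁, a₂, b₂, τ] : E 5) k = 0 := fun k => by rw [h4]; rfl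
    have e0 : a₁ = 0 := h5 0
    have e1 : b₁ = 0 := h5 1
    have e2 : a₂ = 0 := h5 2
    have e3 : b₂ = 0 := h5 3
    have e4 : τ = 0 := h5 4
    simp [e0, e1, e2, e3, e4]
  · intro H
    obtain ⟨v₁, v₂, hv⟩ := exists_OB (ne_zero_of_S2 hx)
    obtain ⟨w₁, w₂, hw⟩ := exists_OB (ne_zero_of_S2 hy)
    obtain ⟨ε, hs⟩ := exists_sgn (x := c.q (f (t, x))) (A := c.crossFr f g t x y v₁ v₂ w₁ w₂)
      (fun u => by
        rw [lnk_crossFr, map_sub, P_fderiv_am hf, he, P_fderiv_am hg])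
      (fun u hu => by
        rw [lnk_crossFr, sub_eq_zero] at hu
        obtain ⟨e4, h1, h2⟩ := H _ _ _ (lnk_inner_OB hv _ _) (lnk_inner_OB hw _ _) hu
        obtain ⟨e0, e1⟩ := hv.indep h1
        obtain ⟨e2, e3⟩ := hw.indep h2
        ext k
        fin_cases k
        exacts [e0, e1, e2, e3, e4])
    exact ⟨ε, he, v₁, v₂, w₁, w₂, hv, hw, hs⟩

theorem FL.link (hh : c.FL h) : c.Link (core h) := by
  refine ⟨fun i => (hh.sm i).comp isOpen_univ (subset_univ _) contDiff_inc.contDiffOn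
    fun x hx => inc_mem_Sc.2 hx, fun i x hx v _ h0 => ?_, fun i j x hx y hy he => ?_⟩
  · have hm := inc_mem_Sc.2 hx
    have h1 : fderiv ℝ (c.am (h i) ∘ inc) x v = 0 := h0
    rw [fderiv_comp x ((hh.sm i).differentiableAt hm) (contDiff_inc.differentiable (by simp) x),
      ContinuousLinearMap.comp_apply, fderiv_inc] at h1
    have h2 : inc v = 0 := (hh.sgn i _ hm).inj (by rw [h1, map_zero])
    rw [← norm_eq_zero, ← norm_inc, h2, norm_zero]
  · obtain ⟨h1, h2⟩ := hh.inj i j _ (inc_mem_Sc.2 hx) _ (inc_mem_Sc.2 hy) he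
    refine ⟨h1, ?_⟩
    rw [← pr3_inc x, h2, pr3_inc]

theorem FL.congr (hh : c.FL h) (he : ∀ i, ∀ᶠ v in 𝓝ˢ Sc, h' i v = h i v) : c.FL h' := by
  have h1 : ∀ i, ∀ v ∈ Sc, ∀ᶠ w in 𝓝 v, h' i w = h i w := fun i v hv =>
    (he i).filter_mono (nhds_le_nhdsSet hv)
  refine ⟨fun i => (hh.sm i).congr (he i), fun i v hv => ?_, fun i j v hv w hw h2 => ?_⟩
  · have h2 : c.am (h' i) =ᶠ[𝓝 v] c.am (h i) :=
      (h1 i v hv).mono fun w hw => c.am_eq_iff.2 (by rw [hw])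
    rw [h2.fderiv_eq, (h1 i v hv).self_of_nhds]
    exact hh.sgn i v hv
  · rw [(h1 i v hv).self_of_nhds, (h1 j w hw).self_of_nhds] at h2
    exact hh.inj i j v hv w hw h2

theorem FL.comp (hh : c.FL h) {e : ι' → ι} (he : Function.Injective e) : c.FL fun i => h (e i) :=
  ⟨fun i => hh.sm (e i), fun i => hh.sgn (e i), fun _ _ v hv w hw h1 =>
    ⟨he (hh.inj _ _ v hv w hw h1).1, (hh.inj _ _ v hv w hw h1).2⟩⟩

/-- A framed link is an embedding of a neighbourhood of the cores (`locinj` with a trivial parameter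
space, `sep_nhds`, `Sgn.eventually`). -/
theorem FL.exists_nhds [Finite ι] (hh : c.FL h) : ∃ W, IsOpen W ∧ Sc ⊆ W ∧ (∀ i, c.SmOn (h i) W) ∧
    (∀ i, ∀ v ∈ W, c.Sgn (c.q (h i v)) (fderiv ℝ (c.am (h i)) v) 1) ∧
    ∀ i j, ∀ v ∈ W, ∀ w ∈ W, c.q (h i v) = c.q (h j w) → i = j ∧ v = w := by
  choose O hO hK hS using hh.sm
  have h1 : ∀ i j, ∃ U ∈ 𝓝ˢ Sc, ∀ v ∈ U, ∀ w ∈ U, c.q (h i v) = c.q (h j w) → i = j ∧ v = w := by
    intro i j
    by_cases hij : i = j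
    · subst hij
      obtain ⟨A', K', -, hK', hA, hKK, -, H⟩ := locinj (B := ℝ) (isOpen_univ.prod (hO i))
        (f := fun p => c.am (h i) p.2) ((hS i).2.comp contDiff_snd.contDiffOn fun _ hp => hp.2)
        (isCompact_singleton (x := 0)) isCompact_Sc (prod_mono (subset_univ _) (hK i))
        (fun b _ x hx v hv => by
          have hd : HasFDerivAt (fun p : ℝ × E 5 => c.am (h i) p.2)
              ((fderiv ℝ (c.am (h i)) x).comp (ContinuousLinearMap.snd ℝ ℝ (E 5))) (b, x) :=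
            HasFDerivAt.comp (f := Prod.snd) (g := c.am (h i)) (b, x)
              ((hh.sm i).differentiableAt hx).hasFDerivAt hasFDerivAt_snd
          rw [hd.fderiv] at hv
          exact (hh.sgn i x hx).inj (hv.trans (map_zero _).symm))
        fun b _ x hx y hy hxy => (hh.inj i i x hx y hy (c.am_eq_iff.1 hxy)).2
      exact ⟨K', hK'.mem_nhdsSet.2 hKK, fun v hv w hw hq =>
        ⟨rfl, (H 0 (hA rfl)).1 hv hw (c.am_eq_iff.2 hq)⟩⟩
    · obtain ⟨A₁, K₁, K₂, -, o₁, o₂, hA, s₁, s₂, -, -, H⟩ := sep_nhds (B := ℝ)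
        (isOpen_univ.prod (hO i)) (isOpen_univ.prod (hO j))
        (f := fun p => c.q (h i p.2)) (g := fun p => c.q (h j p.2))
        (c.continuous_q.comp_continuousOn ((hS i).1.comp continuousOn_snd fun _ hp => hp.2))
        (c.continuous_q.comp_continuousOn ((hS j).1.comp continuousOn_snd fun _ hp => hp.2))
        (isCompact_singleton (x := 0)) isCompact_Sc isCompact_Sc
        (prod_mono (subset_univ _) (hK i)) (prod_mono (subset_univ _) (hK j))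
        fun b _ x hx y hy hxy => hij (hh.inj i j x hx y hy hxy).1
      exact ⟨K₁ ∩ K₂, (o₁.inter o₂).mem_nhdsSet.2 (subset_inter s₁ s₂), fun v hv w hw hq =>
        absurd hq (H 0 (hA rfl) v hv.1 w hw.2)⟩
  choose U hU hI using h1
  have h2 : ∀ i, ∀ᶠ v in 𝓝ˢ Sc, v ∈ O i ∧ c.Sgn (c.q (h i v)) (fderiv ℝ (c.am (h i)) v) 1 := by
    intro i
    refine eventually_nhdsSet_iff_forall.2 fun v hv => ?_
    have hn := (hO i).mem_nhds (hK i hv)
    have hd : ∀ w ∈ O i, DifferentiableAt ℝ (c.am (h i)) w := fun w hw =>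
      (((hS i).2.contDiffAt ((hO i).mem_nhds hw)).differentiableAt (by simp))
    have h3 := Sgn.eventually (S := O i) (p := fun w => c.q (h i w))
      (a := fun w => fderiv ℝ (c.am (h i)) w)
      ((c.continuous_q.comp_continuousOn (hS i).1) v (hK i hv))
      (((hS i).2.continuousOn_fderiv_of_isOpen (hO i) (by simp)) v (hK i hv))
      (fun w hw u => P_fderiv_am (hd w hw) u) (hh.sgn i v hv)
    rw [nhdsWithin_eq_nhds.2 hn] at h3
    exact Filter.Eventually.and hn h3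
  have h3 : ∀ᶠ v in 𝓝ˢ Sc, ∀ i, (v ∈ O i ∧ c.Sgn (c.q (h i v)) (fderiv ℝ (c.am (h i)) v) 1) ∧
      ∀ j, v ∈ U i j :=
    Filter.eventually_all.2 fun i => (h2 i).and (Filter.eventually_all.2 fun j => hU i j)
  obtain ⟨W, hW, hSW, H⟩ := eventually_nhdsSet_iff_exists.1 h3
  exact ⟨W, hW, hSW, fun i => (hS i).mono fun v hv => (H v hv i).1.1, fun i v hv => (H v hv i).1.2,
    fun i j v hv w hw => hI i j v ((H v hv i).2 j) w ((H w hw i).2 j)⟩

end Ctx

end Pool.Agent.CSP
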