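import Pool.Agent.Lib.MP_436e1a_gt.B.AutL

/-! Small perturbations of the identity are automorphisms. -/

open scoped Manifold ContDiff Topology
open Set

namespace Pool.Agent.CSP

namespace Ctx

variable {c : Ctx}

/-- a smooth family of automorphisms for times in `J` -/
structure AutFam (c : Ctx) (J : Set ℝ) (Φ : ℝ × c.Y → c.Y) (Φ₀ : ℝ × c.M → c.M) : Prop where
  cont : ContinuousOn Φ (J ×ˢ univ)
  sm : ContDiffOn ℝ ∞ (fun p : ℝ × E c.N => c.ι (Φ₀ (p.1, c.r p.2))) (J ×ˢ c.U)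
  aut : ∀ t ∈ J, ∃ φ : c.Aut, (∀ y, φ.up y = Φ (t, y)) ∧ ∀ x, φ.dn x = Φ₀ (t, x)

theorem ni_am {J : Set ℝ} {Φ : ℝ × c.Y → c.Y} {Φ₀ : ℝ × c.M → c.M} (h : c.AutFam J Φ Φ₀)
    {t : ℝ} (ht : t ∈ J) (y : c.Y) :
    c.ι (c.q (Φ (t, y))) = c.ι (Φ₀ (t, c.r (c.ι (c.q y)))) := by
  obtain ⟨φ, h1, h2⟩ := h.aut t ht
  have h3 : c.r (c.ι (c.q y)) = c.q y := c.A.r_ι _
  rw [h3, ← h1, ← h2, φ.comm]

/-- the derivative in the second variable -/
theorem ni_slice {B V W : Type} [NormedAddCommGroup B] [NormedSpace ℝ B] [NormedAddCommGroup V]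
    [NormedSpace ℝ V] [NormedAddCommGroup W] [NormedSpace ℝ W] {Ψ : B × V → W} {t : B} {z : V}
    (hΨ : DifferentiableAt ℝ Ψ (t, z)) :
    HasFDerivAt (fun y => Ψ (t, y))
      ((fderiv ℝ Ψ (t, z)).comp (ContinuousLinearMap.inr ℝ B V)) z :=
  hΨ.hasFDerivAt.comp z (hasFDerivAt_prodMk_right t z)

/-- chain rule for a time dependent map applied to a family -/
theorem ni_fderiv {V W : Type} [NormedAddCommGroup V] [NormedSpace ℝ V] [NormedAddCommGroup W]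
    [NormedSpace ℝ W] {Ψ : ℝ × W → W} {a b : ℝ × V → W} {t : ℝ} {x : V} {z : W}
    (hz : a (t, x) = z) (hΨ : DifferentiableAt ℝ Ψ (t, z)) (ha : DifferentiableAt ℝ a (t, x))
    (hb : b =ᶠ[𝓝 (t, x)] fun p => Ψ (p.1, a p)) (τ : ℝ) (v : V) :
    fderiv ℝ b (t, x) (τ, v) = τ • fderiv ℝ Ψ (t, z) (1, 0) +
      fderiv ℝ (fun y => Ψ (t, y)) z (fderiv ℝ a (t, x) (τ, v)) := by
  subst hz
  have h1 : HasFDerivAt (fun p : ℝ × V => (p.1, a p))
      ((ContinuousLinearMap.fst ℝ ℝ V).prod (fderiv ℝ a (t, x))) (t, x) :=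
    hasFDerivAt_fst.prodMk ha.hasFDerivAt
  have h2 : HasFDerivAt (fun p : ℝ × V => Ψ (p.1, a p)) _ (t, x) :=
    HasFDerivAt.comp (g := Ψ) (f := fun p : ℝ × V => (p.1, a p)) (t, x) hΨ.hasFDerivAt h1
  rw [hb.fderiv_eq, h2.fderiv, (ni_slice hΨ).fderiv]
  simp only [ContinuousLinearMap.comp_apply, ContinuousLinearMap.prod_apply,
    ContinuousLinearMap.coe_fst', ContinuousLinearMap.inr_apply]
  rw [← map_smul, ← map_add]
  congr 1
  simp

/-- a family of automorphisms applied to a smooth family of maps -/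
theorem AutFam.smOn {J : Set ℝ} {Φ : ℝ × c.Y → c.Y} {Φ₀ : ℝ × c.M → c.M} (h : c.AutFam J Φ Φ₀)
    {V : Type} [NormedAddCommGroup V] [NormedSpace ℝ V] {f : ℝ × V → c.Y} {O : Set (ℝ × V)}
    (hf : c.SmOn f O) (hO : ∀ p ∈ O, p.1 ∈ J) : c.SmOn (fun p => Φ (p.1, f p)) O := by
  refine ⟨h.cont.comp (continuousOn_fst.prodMk hf.1) fun p hp => ⟨hO p hp, mem_univ _⟩, ?_⟩
  have h1 := h.sm.comp (f := fun p : ℝ × V => (p.1, c.am f p)) (contDiffOn_fst.prodMk hf.2)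
    fun p hp => ⟨hO p hp, c.am_mem_U f p⟩
  exact h1.congr fun p hp => ni_am h (hO p hp) (f p)

/-- the time derivative of the family cancels in the frame of a crossing -/
theorem AutFam.cross {J : Set ℝ} {Φ : ℝ × c.Y → c.Y} {Φ₀ : ℝ × c.M → c.M} (h : c.AutFam J Φ Φ₀)
    (hJ : IsOpen J) {f g : ℝ × E 3 → c.Y} {ε : ℤˣ} {t : ℝ} (ht : t ∈ J) {x y : E 3}
    (hc : c.Cross f g ε t x y) (hf : DifferentiableAt ℝ (c.am f) (t, x))
    (hg : DifferentiableAt ℝ (c.am g) (t, y)) :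
    c.Cross (fun p => Φ (p.1, f p)) (fun p => Φ (p.1, g p)) ε t x y := by
  obtain ⟨he, v₁, v₂, w₁, w₂, hv, hw, hs⟩ := hc
  obtain ⟨φ, h1, h2⟩ := h.aut t ht
  refine ⟨by simp only [he], v₁, v₂, w₁, w₂, hv, hw, ?_⟩
  have hΨ : DifferentiableAt ℝ (fun p : ℝ × E c.N => c.ι (Φ₀ (p.1, c.r p.2)))
      (t, c.ι (c.q (f (t, x)))) :=
    (h.sm.contDiffAt ((hJ.prod c.A.U_open).mem_nhds ⟨ht, c.A.mem_U _⟩)).differentiableAt
      (by simp)
  have ev : ∀ (k : ℝ × E 3 → c.Y) (u : E 3), c.am (fun p => Φ (p.1, k p)) =ᶠ[𝓝 (t, u)]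
      fun p => c.ι (Φ₀ (p.1, c.r (c.am k p))) := by
    intro k u
    have hn : ∀ᶠ p : ℝ × E 3 in 𝓝 (t, u), p.1 ∈ J :=
      continuousAt_fst.eventually (hJ.mem_nhds ht)
    filter_upwards [hn] with p hp
    exact ni_am h hp (k p)
  have hD : fderiv ℝ (fun z => c.ι (Φ₀ (t, c.r z))) (c.ι (c.q (f (t, x)))) =
      φ.D (c.q (f (t, x))) := by
    have e1 : (fun z => c.ι (Φ₀ (t, c.r z))) = c.amb φ.dn := by
      funext z
      rw [← h2]
      rfl
    rw [e1]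
    rfl
  have df := ni_fderiv (a := c.am f) (z := c.ι (c.q (f (t, x)))) rfl hΨ hf (ev f x)
  have dg := ni_fderiv (a := c.am g) (z := c.ι (c.q (f (t, x)))) (by rw [he]; rfl) hΨ hg (ev g y)
  simp only [hD] at df dg
  have hb : c.q (Φ (t, f (t, x))) = φ.dn (c.q (f (t, x))) := by rw [← h1, φ.comm]
  have hfr : c.crossFr (fun p => Φ (p.1, f p)) (fun p => Φ (p.1, g p)) t x y v₁ v₂ w₁ w₂ =
      (φ.D (c.q (f (t, x)))).comp (c.crossFr f g t x y v₁ v₂ w₁ w₂) := by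
    unfold crossFr
    rw [comp_fr]
    congr 1
    funext k
    fin_cases k <;> simp [df, dg]
  show c.Sgn (c.q (Φ (t, f (t, x)))) _ ε
  rw [hb, hfr]
  exact φ.sgn hs

/-- the differential of a map of the manifold in the preferred charts -/
noncomputable def ni_D (φ : c.M → c.M) (x : c.M) : E 5 →L[ℝ] E 5 := mfderiv (𝓡 5) (𝓡 5) φ x

theorem ni_chain {φ : c.M → c.M} {G : E c.N → E c.N} {x : c.M}
    (hφ : MDifferentiableAt (𝓡 5) (𝓡 5) φ x) (hG : DifferentiableAt ℝ G (c.ι x))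
    (h : ∀ y, c.ι (φ y) = G (c.ι y)) :
    (fderiv ℝ G (c.ι x)).comp (c.dι x) = (c.dι (φ x)).comp (ni_D φ x) := by
  have hι : ∀ y, MDifferentiableAt (𝓡 5) (𝓡 c.N) c.ι y := fun y =>
    c.A.ι_smooth.mdifferentiableAt (by simp)
  have h1 := mfderiv_comp x (hι (φ x)) hφ
  have h2 := mfderiv_comp x hG.mdifferentiableAt (hι x)
  have e : c.ι ∘ φ = G ∘ c.ι := funext h
  rw [e, h2, mfderiv_eq_fderiv] at h1
  exact h1

theorem ni_sgn_iff {φ : c.M → c.M} {x : c.M} :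
    c.Sgn (φ x) ((c.dι (φ x)).comp (ni_D φ x)) 1 ↔ 0 < jac φ x := by
  constructor
  · rintro ⟨B, hB, hd⟩
    have e : ni_D φ x = B :=
      ContinuousLinearMap.ext fun u => c.dι_inj (φ x) (congrArg (fun L => L u) hB)
    have e2 : jac φ x = B.det := congrArg ContinuousLinearMap.det e
    rw [e2]
    simpa using hd
  · intro hd
    refine ⟨ni_D φ x, rfl, ?_⟩
    have e2 : (ni_D φ x).det = jac φ x := rfl
    rw [e2]
    simpa using hd

/-- an orientation preserving embedding of the closed connected manifold into itself is onto -/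
theorem ni_surj {φ : c.M → c.M} (h : Emb 1 φ univ) : Function.Surjective φ := by
  have ho : IsOpen (φ '' univ) := h.isOpen_image isOpen_univ isOpen_univ subset_rfl
  have hc : IsClosed (φ '' univ) := (isCompact_univ.image_of_continuousOn h.continuousOn).isClosed
  have hu : φ '' univ = univ := IsClopen.eq_univ ⟨hc, ho⟩ (univ_nonempty.image φ)
  rw [image_univ] at hu
  exact range_eq_univ.mp hu

/-- the pushed point -/
def ni_dn (c : Ctx) (e : ℝ × E c.N → E c.N) (p : ℝ × c.M) : c.M :=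
  c.r (c.ι p.2 + e (p.1, c.ι p.2))

/-- the ambient version -/
def ni_G (c : Ctx) (e : ℝ × E c.N → E c.N) (p : ℝ × E c.N) : E c.N := c.ρ (p.2 + e p)

/-- the domain of `ni_G` -/
def ni_O (c : Ctx) (e : ℝ × E c.N → E c.N) : Set (ℝ × E c.N) := {p | p.2 ∈ c.U ∧ p.2 + e p ∈ c.U}

theorem ni_isOpen {e : ℝ × E c.N → E c.N} (he : ContDiff ℝ ∞ e) : IsOpen (ni_O c e) :=
  (c.A.U_open.preimage continuous_snd).inter
    (c.A.U_open.preimage (continuous_snd.add he.continuous))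

theorem ni_smG {e : ℝ × E c.N → E c.N} (he : ContDiff ℝ ∞ e) :
    ContDiffOn ℝ ∞ (ni_G c e) (ni_O c e) :=
  c.contDiffOn_ρ.comp (contDiff_snd.add he).contDiffOn fun _ hp => hp.2

theorem ni_diffG {e : ℝ × E c.N → E c.N} (he : ContDiff ℝ ∞ e) {p : ℝ × E c.N}
    (hp : p ∈ ni_O c e) : DifferentiableAt ℝ (ni_G c e) p :=
  ((ni_smG he).contDiffAt ((ni_isOpen he).mem_nhds hp)).differentiableAt (by simp)

theorem ni_diffρ {z : E c.N} (hz : z ∈ c.U) : DifferentiableAt ℝ c.ρ z :=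
  (c.contDiffOn_ρ.contDiffAt (c.A.U_open.mem_nhds hz)).differentiableAt (by simp)

theorem ni_fdF {e : ℝ × E c.N → E c.N} (he : ContDiff ℝ ∞ e) {p : ℝ × E c.N}
    (hp : p ∈ ni_O c e) (v : E c.N) :
    fderiv ℝ (fun p : ℝ × E c.N => (ni_G c e p, p.2 - c.ρ p.2)) p (0, v) =
      (fderiv ℝ (ni_G c e) p (0, v), v - fderiv ℝ c.ρ p.2 v) := by
  have h1 : HasFDerivAt (fun p : ℝ × E c.N => c.ρ p.2) _ p :=
    HasFDerivAt.comp (g := c.ρ) (f := Prod.snd) p (ni_diffρ hp.1).hasFDerivAt hasFDerivAt_snd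
  have h2 : HasFDerivAt (fun p : ℝ × E c.N => p.2 - c.ρ p.2) _ p := hasFDerivAt_snd.sub h1
  rw [((ni_diffG he hp).hasFDerivAt.prodMk h2).fderiv]
  simp

/-- for times near `t₀` the push is small, injective and immersive -/
theorem ni_small {t₀ : ℝ} {e : ℝ × E c.N → E c.N} (he : ContDiff ℝ ∞ e)
    (h0 : ∀ z, e (t₀, z) = 0) : ∃ θ > 0, ∀ t ∈ Ioo (t₀ - θ) (t₀ + θ),
      (∀ x, ∀ s ∈ Icc (0 : ℝ) 1, c.ι x + s • e (t, c.ι x) ∈ c.U) ∧
      (Function.Injective fun x => ni_dn c e (t, x)) ∧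
      ∀ x u, fderiv ℝ (ni_G c e) (t, c.ι x) (0, c.dι x u) = 0 → u = 0 := by
  obtain ⟨δ, hδ, hrad⟩ := c.exists_rad
  have hO : IsOpen (ni_O c e ∩ {p | ‖e p‖ < δ}) :=
    (ni_isOpen he).inter (isOpen_lt he.continuous.norm continuous_const)
  have hF : ContDiffOn ℝ ∞ (fun p : ℝ × E c.N => (ni_G c e p, p.2 - c.ρ p.2))
      (ni_O c e ∩ {p | ‖e p‖ < δ}) :=
    ((ni_smG he).prodMk (contDiffOn_snd.sub
      (c.contDiffOn_ρ.comp contDiffOn_snd fun _ hp => hp.1))).mono inter_subset_left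
  have hm : ∀ x, (t₀, c.ι x) ∈ ni_O c e := fun x =>
    ⟨c.A.mem_U x, by rw [h0, add_zero]; exact c.A.mem_U x⟩
  have hG0 : (fun z => ni_G c e (t₀, z)) = c.ρ := by
    funext z
    unfold ni_G
    rw [h0, add_zero]
  obtain ⟨A', K', hA', -, hA, hK, hAK, hinj⟩ := locinj hO hF (isCompact_singleton (x := t₀))
    (isCompact_range c.continuous_ι)
    (by
      rintro ⟨b, z⟩ ⟨hb, x, hx⟩
      have hb' : b = t₀ := hb
      have hx' : c.ι x = z := hx
      subst hb' hx'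
      refine ⟨hm x, ?_⟩
      show ‖e (b, c.ι x)‖ < δ
      rw [h0, norm_zero]
      exact hδ)
    (by
      rintro b hb z ⟨x, rfl⟩ v hv
      have hb' : b = t₀ := hb
      subst hb'
      rw [ni_fdF he (hm x), Prod.mk_eq_zero] at hv
      have h1 := (ni_slice (ni_diffG he (hm x))).fderiv
      rw [hG0] at h1
      have h2 : fderiv ℝ c.ρ (c.ι x) v = 0 := by
        rw [h1]
        exact hv.1
      have h3 := hv.2
      simp only [h2, sub_zero] at h3
      exact h3)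
    (by
      rintro b hb z ⟨x, rfl⟩ z' ⟨x', rfl⟩ hz
      have hb' : b = t₀ := hb
      subst hb'
      have h1 : ni_G c e (b, c.ι x) = ni_G c e (b, c.ι x') := congrArg Prod.fst hz
      rw [congrFun hG0, congrFun hG0, c.ρ_ι, c.ρ_ι] at h1
      exact h1)
  obtain ⟨θ, hθ, hball⟩ := Metric.isOpen_iff.mp hA' t₀ (hA rfl)
  rw [Real.ball_eq_Ioo] at hball
  refine ⟨θ, hθ, fun t ht => ?_⟩
  have hmem : ∀ x, (t, c.ι x) ∈ ni_O c e ∩ {p | ‖e p‖ < δ} := fun x =>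
    hAK (mk_mem_prod (hball ht) (hK (mem_range_self x)))
  obtain ⟨hi1, hi2⟩ := hinj t (hball ht)
  refine ⟨fun x s hs => hrad x _ ?_, fun x x' hx => ?_, fun x u hu => ?_⟩
  · have h1 : ‖e (t, c.ι x)‖ < δ := (hmem x).2
    rw [norm_smul, Real.norm_of_nonneg hs.1]
    exact lt_of_le_of_lt (mul_le_of_le_one_left (norm_nonneg _) hs.2) h1
  · refine c.ι_inj (hi1 (hK (mem_range_self x)) (hK (mem_range_self x')) ?_)
    have h1 : ni_G c e (t, c.ι x) = ni_G c e (t, c.ι x') := congrArg c.ι hx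
    simp only [h1, c.ρ_ι, sub_self]
  · have h1 := hi2 _ (hK (mem_range_self x)) (c.dι x u) (by
      rw [ni_fdF he (hmem x).1, hu, Prod.mk_eq_zero]
      exact ⟨rfl, sub_eq_zero.mpr (c.P_dι x u).symm⟩)
    exact c.dι_inj x (h1.trans (map_zero _).symm)

theorem ni_smooth {e : ℝ × E c.N → E c.N} (he : ContDiff ℝ ∞ e) {t : ℝ}
    (hU : ∀ x, c.ι x + e (t, c.ι x) ∈ c.U) :
    ContMDiffOn (𝓡 5) (𝓡 5) ∞ (fun x => ni_dn c e (t, x)) univ := by
  have h1 : ContDiff ℝ ∞ fun z : E c.N => z + e (t, z) :=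
    contDiff_id.add (he.comp (contDiff_const.prodMk contDiff_id))
  exact c.A.r_smooth.comp (h1.contMDiff.comp c.A.ι_smooth).contMDiffOn fun x _ => hU x

theorem ni_frame {e : ℝ × E c.N → E c.N} (he : ContDiff ℝ ∞ e) {t : ℝ}
    (hU : ∀ x, c.ι x + e (t, c.ι x) ∈ c.U) (x : c.M) :
    ((fderiv ℝ (ni_G c e) (t, c.ι x)).comp (ContinuousLinearMap.inr ℝ ℝ (E c.N))).comp (c.dι x) =
      (c.dι (ni_dn c e (t, x))).comp (ni_D (fun x => ni_dn c e (t, x)) x) := by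
  have h1 := ni_slice (ni_diffG he (p := (t, c.ι x)) ⟨c.A.mem_U x, hU x⟩)
  rw [← h1.fderiv]
  exact ni_chain (φ := fun x => ni_dn c e (t, x))
    ((contMDiffOn_univ.mp (ni_smooth he hU)).mdifferentiableAt (by simp)) h1.differentiableAt
    fun _ => rfl

/-- the Jacobian stays positive, by connectedness in time -/
theorem ni_jac {t₀ : ℝ} {e : ℝ × E c.N → E c.N} (he : ContDiff ℝ ∞ e) (h0 : ∀ z, e (t₀, z) = 0)
    {J : Set ℝ} (hJ : IsPreconnected J) (ht₀ : t₀ ∈ J)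
    (hU : ∀ t ∈ J, ∀ x, c.ι x + e (t, c.ι x) ∈ c.U)
    (hi : ∀ t ∈ J, ∀ x u, fderiv ℝ (ni_G c e) (t, c.ι x) (0, c.dι x u) = 0 → u = 0)
    {t : ℝ} (ht : t ∈ J) (x : c.M) : 0 < jac (fun x => ni_dn c e (t, x)) x := by
  have hq : Continuous fun t : ℝ => c.ι x + e (t, c.ι x) :=
    continuous_const.add (he.continuous.comp (continuous_id.prodMk continuous_const))
  have hp : ContinuousOn (fun t => ni_dn c e (t, x)) J :=
    c.continuousOn_r.comp hq.continuousOn fun t ht => hU t ht x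
  have hd : ContinuousOn (fun t => fderiv ℝ (ni_G c e) (t, c.ι x)) J :=
    ((ni_smG he).continuousOn_fderiv_of_isOpen (ni_isOpen he) (by simp)).comp
      (continuous_id.prodMk continuous_const).continuousOn fun t ht => ⟨c.A.mem_U x, hU t ht x⟩
  have ha : ContinuousOn (fun t => ((fderiv ℝ (ni_G c e) (t, c.ι x)).comp
      (ContinuousLinearMap.inr ℝ ℝ (E c.N))).comp (c.dι x)) J :=
    (hd.clm_comp continuousOn_const).clm_comp continuousOn_const
  have key := Sgn.of_preconnected (ε := 1) hJ hp ha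
    (fun t ht u => by
      rw [ni_frame he (hU t ht) x]
      exact c.P_dι _ _)
    (fun t ht u hu => hi t ht x u hu) ht₀
    (by
      rw [ni_frame he (hU t₀ ht₀) x]
      refine (ni_sgn_iff (φ := fun x => ni_dn c e (t₀, x))).mpr ?_
      have e1 : (fun x => ni_dn c e (t₀, x)) = id := by
        funext y
        unfold ni_dn
        rw [h0, add_zero]
        exact c.A.r_ι y
      rw [e1, jac_id]
      exact one_pos) t ht
  rw [ni_frame he (hU t ht) x] at key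
  exact (ni_sgn_iff (φ := fun x => ni_dn c e (t, x))).mp key

/-- Sketch. `Φ₀ (t, x) = r (ι x + e (t, ι x))`; for `|t - t₀| < θ` the field is smaller than the radius
of `exists_rad` on the compact set `range ι`. Lift with `lift_push` (`V = ℝ × Y`); equivariance by
`lift_unique` along the segment `s ∈ [0, 1]`. Injective: `locinj` for
`(t, z) ↦ (ρ (z + e (t, z)), z - ρ z)` on `{t₀} × range ι`. Positive Jacobian: the frame
`D (ι ∘ Φ₀ (t, ·) ∘ r) (ι x) ∘ dι x` is tangent and injective; use a constant coframe near each point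
(`isOpen_cof`, continuity of `det (C ∘ D ∘ P ∘ a₀)`) and compactness, or connectedness in `t`
(`Sgn.of_preconnected` with `x` fixed). Onto: the image is open (`Emb.isOpen_image`), compact and
nonempty in a connected space. -/
theorem exists_autFam {t₀ : ℝ} {e : ℝ × E c.N → E c.N} (he : ContDiff ℝ ∞ e)
    (h0 : ∀ z, e (t₀, z) = 0) : ∃ θ > 0, ∃ Φ Φ₀, c.AutFam (Ioo (t₀ - θ) (t₀ + θ)) Φ Φ₀ ∧
      ∀ t ∈ Ioo (t₀ - θ) (t₀ + θ), ∀ y,
        c.ι (c.q (Φ (t, y))) = c.ρ (c.ι (c.q y) + e (t, c.ι (c.q y))) ∧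
        (e (t, c.ι (c.q y)) = 0 → Φ (t, y) = y) := by
  obtain ⟨θ, hθ, hs⟩ := ni_small he h0
  refine ⟨θ, hθ, ?_⟩
  have ht₀ : t₀ ∈ Ioo (t₀ - θ) (t₀ + θ) := ⟨by linarith, by linarith⟩
  have hJ : IsPreconnected (Ioo (t₀ - θ) (t₀ + θ)) := isPreconnected_Ioo
  generalize Ioo (t₀ - θ) (t₀ + θ) = J at hs ht₀ hJ
  have one : (1 : ℝ) ∈ Icc (0 : ℝ) 1 := ⟨zero_le_one, le_rfl⟩
  have hU : ∀ t ∈ J, ∀ x, c.ι x + e (t, c.ι x) ∈ c.U := fun t ht x => by
    simpa using (hs t ht).1 x 1 one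
  have hw : Continuous fun p : ℝ × c.Y => e (p.1, c.ι (c.q p.2)) :=
    he.continuous.comp (continuous_fst.prodMk
      (c.continuous_ι.comp (c.continuous_q.comp continuous_snd)))
  obtain ⟨H, hH, hH0, hHam, hHfix⟩ := c.lift_push (O := J ×ˢ univ) (f := Prod.snd)
    continuousOn_snd hw.continuousOn fun p hp s hs' => (hs p.1 hp.1).1 (c.q p.2) s hs'
  have ham : ∀ s ∈ Icc (0 : ℝ) 1, ∀ t ∈ J, ∀ y, c.ι (c.q (H (s, t, y))) =
      c.ρ (c.ι (c.q y) + s • e (t, c.ι (c.q y))) := fun s hs' t ht y =>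
    hHam (s, t, y) ⟨hs', ht, mem_univ _⟩
  have ham1 : ∀ t ∈ J, ∀ y, c.ι (c.q (H (1, t, y))) =
      c.ρ (c.ι (c.q y) + e (t, c.ι (c.q y))) := fun t ht y => by
    rw [ham 1 one t ht y, one_smul]
  have hc : ContinuousOn (fun p : ℝ × c.Y => H (1, p)) (J ×ˢ univ) :=
    hH.comp (continuous_const.prodMk continuous_id).continuousOn fun p hp => ⟨one, hp⟩
  refine ⟨fun p => H (1, p), ni_dn c e, ⟨hc, ?_, fun t ht => ?_⟩, fun t ht y =>
    ⟨ham1 t ht y, fun h => hHfix (t, y) ⟨ht, mem_univ _⟩ h 1 one⟩⟩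
  · have h1 : ContDiffOn ℝ ∞ (fun p : ℝ × E c.N => (p.1, c.ρ p.2)) (J ×ˢ c.U) :=
      contDiffOn_fst.prodMk (c.contDiffOn_ρ.comp contDiffOn_snd fun _ hp => hp.2)
    exact (ni_smG he).comp h1 fun p hp => ⟨c.A.mem_U _, hU p.1 hp.1 _⟩
  · have hemb : Emb 1 (fun x => ni_dn c e (t, x)) univ :=
      ⟨ni_smooth he (hU t ht), (hs t ht).2.1.injOn, fun x _ => by
        rw [one_mul]
        exact ni_jac he h0 hJ ht₀ hU (fun t ht => (hs t ht).2.2) ht x⟩
    have hpath : ∀ y, ContinuousOn (fun s : ℝ => H (s, t, y)) (Icc 0 1) := fun y =>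
      hH.comp (continuous_id.prodMk continuous_const).continuousOn
        fun s hs' => ⟨hs', ht, mem_univ _⟩
    refine ⟨⟨fun y => H (1, t, y), fun x => ni_dn c e (t, x), ?_, fun g y => ?_,
      fun y => c.ι_inj (ham1 t ht y), hemb, ni_surj hemb⟩, fun _ => rfl, fun _ => rfl⟩
    · exact hc.comp_continuous (continuous_const.prodMk continuous_id)
        fun y => ⟨ht, mem_univ _⟩
    · refine c.lift_unique isPreconnected_Icc (hpath (g • y))
        ((c.continuous_smul g).comp_continuousOn (hpath y)) (fun s hs' => ?_)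
        (v₀ := 0) ⟨le_rfl, zero_le_one⟩ ?_ one
      · refine c.ι_inj ?_
        show c.ι (c.q (H (s, t, g • y))) = c.ι (c.q (g • H (s, t, y)))
        rw [c.q_smul, ham s hs' t ht, ham s hs' t ht, c.q_smul]
      · show H (0, t, g • y) = g • H (0, t, y)
        rw [hH0 (t, g • y) ⟨ht, mem_univ _⟩, hH0 (t, y) ⟨ht, mem_univ _⟩]

end Ctx

end Pool.Agent.CSP
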