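import Pool.Agent.Lib.MP_436e1a_gt.Ctx

/-! Basic facts on the working context. -/

open scoped Manifold ContDiff Topology
open Set

namespace Pool.Agent.CSP

namespace Ctx

variable (c : Ctx) {V V' : Type}

theorem q_smul (g : c.G) (y : c.Y) : c.q (g • y) = c.q y :=
  c.C.cov.map_smul g

theorem q_eq_iff {y y' : c.Y} : c.q y = c.q y' ↔ ∃ g : c.G, y = g • y' :=
  c.C.cov.apply_eq_iff_mem_orbit.trans ⟨fun ⟨g, h⟩ => ⟨g, h.symm⟩, fun ⟨g, h⟩ => ⟨g, h.symm⟩⟩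

theorem smul_eq_self {g : c.G} {y : c.Y} (h : g • y = y) : g = 1 :=
  c.C.cov.isCancelSMul.right_cancel' g 1 y (by rw [h, one_smul])

theorem isCoveringMap_q : IsCoveringMap c.q :=
  c.C.cov.isCoveringMap

theorem continuous_q : Continuous c.q :=
  c.isCoveringMap_q.continuous

theorem surjective_q : Function.Surjective c.q :=
  c.C.cov.surjective

theorem continuous_smul (g : c.G) : Continuous fun y : c.Y => g • y :=
  c.C.cov.continuous_const_smul g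

/-- a covering space of a Hausdorff space (`IsCoveringMap.isSeparatedMap`) -/
instance t2Y : T2Space c.Y :=
  ⟨fun a b hab => by
    by_cases h : c.q a = c.q b
    · exact c.isCoveringMap_q.isSeparatedMap a b h hab
    · exact separated_by_continuous c.continuous_q h⟩

/-- a covering map is a local homeomorphism onto a manifold -/
instance locPathY : LocallyPathConnectedSpace c.Y := by
  have : LocallyPathConnectedSpace c.M := ChartedSpace.locallyPathConnectedSpace (E 5) c.M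
  refine ⟨fun x => Filter.hasBasis_self.2 fun t ht => ?_⟩
  obtain ⟨e, hx, he⟩ := c.isCoveringMap_q.isLocalHomeomorph x
  obtain ⟨s, ⟨hs, hp⟩, hst⟩ := (path_connected_basis (e x)).mem_iff.1
    (Filter.inter_mem (e.open_target.mem_nhds (e.map_source hx))
      ((e.continuousAt_symm (e.map_source hx)).preimage_mem_nhds (by rwa [e.left_inv hx])))
  refine ⟨e.symm '' s, ?_, hp.image' (e.continuousOn_symm.mono fun y hy => (hst hy).1), ?_⟩
  · have := e.symm.image_mem_nhds (e.map_source hx) hs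
    rwa [e.left_inv hx] at this
  · rintro _ ⟨y, hy, rfl⟩
    exact (hst hy).2

theorem q_locInj (y : c.Y) : ∃ W ∈ 𝓝 y, InjOn c.q W :=
  isLocallyInjective_iff_nhds.1 c.isCoveringMap_q.isLocalHomeomorph.isLocallyInjective y

theorem ι_inj : Function.Injective c.ι :=
  Function.LeftInverse.injective c.A.r_ι

theorem continuous_ι : Continuous c.ι :=
  c.A.ι_smooth.continuous

theorem isClosedEmbedding_ι : Topology.IsClosedEmbedding c.ι :=
  c.continuous_ι.isClosedEmbedding c.ι_inj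

theorem continuousOn_r : ContinuousOn c.r c.U :=
  c.A.r_smooth.continuousOn

theorem ρ_ι (x : c.M) : c.ρ (c.ι x) = c.ι x :=
  congrArg c.ι (c.A.r_ι x)

theorem contDiffOn_ρ : ContDiffOn ℝ ∞ c.ρ c.U :=
  (c.A.ι_smooth.comp_contMDiffOn c.A.r_smooth).contDiffOn

theorem am_mem_U (f : V → c.Y) (v : V) : c.am f v ∈ c.U :=
  c.A.mem_U _

theorem am_smul (g : c.G) (f : V → c.Y) : c.am (fun v => g • f v) = c.am f :=
  funext fun v => congrArg c.ι (c.q_smul g (f v))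

theorem am_comp (f : V → c.Y) (φ : V' → V) : c.am (fun v => f (φ v)) = fun v => c.am f (φ v) :=
  rfl

theorem am_eq_iff {f : V → c.Y} {g : V' → c.Y} {v : V} {w : V'} :
    c.am f v = c.am g w ↔ c.q (f v) = c.q (g w) :=
  c.ι_inj.eq_iff

theorem continuousOn_am [TopologicalSpace V] {f : V → c.Y} {O : Set V} (h : ContinuousOn f O) :
    ContinuousOn (c.am f) O :=
  (c.continuous_ι.comp c.continuous_q).comp_continuousOn h

theorem sm_ι (x : c.M) : MDifferentiableAt (𝓡 5) (𝓡 c.N) c.ι x :=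
  c.A.ι_smooth.mdifferentiableAt (by simp)

theorem sm_r {z : E c.N} (h : z ∈ c.U) : MDifferentiableAt (𝓡 c.N) (𝓡 5) c.r z :=
  (c.A.r_smooth.contMDiffAt (c.A.U_open.mem_nhds h)).mdifferentiableAt (by simp)

theorem sm_ρ {z : E c.N} (h : z ∈ c.U) : DifferentiableAt ℝ c.ρ z :=
  (c.contDiffOn_ρ.contDiffAt (c.A.U_open.mem_nhds h)).differentiableAt (by simp)

theorem dι_inj (x : c.M) : Function.Injective (c.dι x) := by
  have h := mfderiv_comp x (c.sm_r (c.A.mem_U x)) (c.sm_ι x)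
  have h1 : c.r ∘ c.ι = id := funext c.A.r_ι
  rw [h1, mfderiv_id] at h
  exact Function.LeftInverse.injective (g := mfderiv (𝓡 c.N) (𝓡 5) c.r (c.ι x))
    fun u => (DFunLike.congr_fun h u).symm

theorem finrank_range_dι (x : c.M) : Module.finrank ℝ (c.dι x).range = 5 := by
  rw [LinearMap.finrank_range_of_inj (c.dι_inj x), finrank_euclideanSpace_fin]

theorem P_dι (x : c.M) (u : E 5) : c.P x (c.dι x u) = c.dι x u := by
  have h := mfderiv_comp x (c.sm_ρ (c.A.mem_U x)).mdifferentiableAt (c.sm_ι x)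
  have h1 : c.ρ ∘ c.ι = c.ι := funext c.ρ_ι
  rw [h1, mfderiv_eq_fderiv] at h
  exact (DFunLike.congr_fun h u).symm

theorem range_fderiv_ρ {z : E c.N} (h : z ∈ c.U) : (fderiv ℝ c.ρ z).range = (c.dι (c.r z)).range := by
  have h1 := mfderiv_comp z (c.sm_ι (c.r z)) (c.sm_r h)
  rw [mfderiv_eq_fderiv] at h1
  ext w
  constructor
  · rintro ⟨u, rfl⟩
    exact ⟨_, (DFunLike.congr_fun h1 u).symm⟩
  · rintro ⟨u, rfl⟩
    obtain ⟨v, rfl⟩ := c.A.r_subm z h u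
    exact ⟨v, DFunLike.congr_fun h1 v⟩

theorem range_P (x : c.M) : (c.P x).range = (c.dι x).range := by
  have h := c.range_fderiv_ρ (c.A.mem_U x)
  rwa [show c.r (c.A.ι x) = x from c.A.r_ι x] at h

theorem P_eq_self_iff {x : c.M} {w : E c.N} : c.P x w = w ↔ ∃ u, w = c.dι x u := by
  refine ⟨fun h => ?_, fun ⟨u, h⟩ => by rw [h, c.P_dι]⟩
  obtain ⟨u, hu⟩ : w ∈ (c.dι x).range := c.range_P x ▸ ⟨w, h⟩
  exact ⟨u, hu.symm⟩

theorem P_mul_P (x : c.M) : c.P x * c.P x = c.P x := by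
  refine ContinuousLinearMap.ext fun w => ?_
  obtain ⟨u, hu⟩ : c.P x w ∈ (c.dι x).range := c.range_P x ▸ ⟨w, rfl⟩
  exact c.P_eq_self_iff.2 ⟨u, hu.symm⟩

theorem continuous_P : Continuous c.P :=
  (c.contDiffOn_ρ.continuousOn_fderiv_of_isOpen c.A.U_open (by simp)).comp_continuous
    c.continuous_ι c.A.mem_U

theorem sm_rad {W : Set (E c.N)} (hW : IsOpen W) (h : ∀ x, c.ι x ∈ W) :
    ∃ δ > 0, ∀ x, ∀ w : E c.N, ‖w‖ < δ → c.ι x + w ∈ W := by
  obtain ⟨δ, hδ, h1⟩ := (isCompact_range c.continuous_ι).exists_thickening_subset_open hW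
    (range_subset_iff.2 h)
  exact ⟨δ, hδ, fun x w hw => h1 (Metric.mem_thickening_iff.2
    ⟨_, mem_range_self x, by simpa [dist_eq_norm] using hw⟩)⟩

/-- a uniform tubular radius (compactness) -/
theorem exists_rad : ∃ δ > 0, ∀ x, ∀ w : E c.N, ‖w‖ < δ → c.ι x + w ∈ c.U :=
  c.sm_rad c.A.U_open c.A.mem_U

/-- uniform continuity of the retraction along the manifold -/
theorem exists_rad_close {ε : ℝ} (hε : 0 < ε) : ∃ δ > 0, ∀ x, ∀ w : E c.N, ‖w‖ < δ →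
    c.ι x + w ∈ c.U ∧ ‖c.ρ (c.ι x + w) - c.ι x‖ < ε := by
  have ho : IsOpen (c.U ∩ (fun z => c.ρ z - z) ⁻¹' Metric.ball 0 (ε / 2)) :=
    (c.contDiffOn_ρ.continuousOn.sub continuousOn_id).isOpen_inter_preimage c.A.U_open
      Metric.isOpen_ball
  obtain ⟨δ, hδ, h⟩ := c.sm_rad ho fun x => ⟨c.A.mem_U x, by simp [c.ρ_ι, hε]⟩
  refine ⟨min δ (ε / 2), by positivity, fun x w hw => ?_⟩
  obtain ⟨h1, h2⟩ := h x w (hw.trans_le (min_le_left _ _))
  refine ⟨h1, ?_⟩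
  have h3 := hw.trans_le (min_le_right _ _)
  have h4 := norm_add_le (c.ρ (c.ι x + w) - (c.ι x + w)) w
  rw [mem_preimage, mem_ball_zero_iff] at h2
  rw [show c.ρ (c.ι x + w) - (c.ι x + w) + w = c.ρ (c.ι x + w) - c.ι x by abel] at h4
  linarith

variable {c} [NormedAddCommGroup V] [NormedSpace ℝ V] [NormedAddCommGroup V'] [NormedSpace ℝ V']
  {f f' : V → c.Y} {O O' K K' : Set V}

theorem SmOn.mono (h : c.SmOn f O) (hO : O' ⊆ O) : c.SmOn f O' :=
  ⟨h.1.mono hO, h.2.mono hO⟩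

theorem SmOn.congr (h : c.SmOn f O) (hf : EqOn f' f O) : c.SmOn f' O :=
  ⟨h.1.congr hf, h.2.congr fun _ hv => congrArg (fun y => c.ι (c.q y)) (hf hv)⟩

theorem SmOn.smul (h : c.SmOn f O) (g : c.G) : c.SmOn (fun v => g • f v) O :=
  ⟨(c.continuous_smul g).comp_continuousOn h.1, by rw [c.am_smul]; exact h.2⟩

theorem SmOn.comp (h : c.SmOn f O) {φ : V' → V} {O₁ : Set V'} (hφ : ContDiffOn ℝ ∞ φ O₁)
    (hm : MapsTo φ O₁ O) : c.SmOn (fun v => f (φ v)) O₁ :=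
  ⟨h.1.comp hφ.continuousOn hm, h.2.comp hφ hm⟩

/-- smoothness is local on open sets -/
theorem smOn_of_local (h : ∀ v ∈ O, ∃ O₁ f₁, IsOpen O₁ ∧ v ∈ O₁ ∧ c.SmOn f₁ O₁ ∧ EqOn f f₁ O₁) :
    c.SmOn f O := by
  refine ⟨fun v hv => ?_, fun v hv => ?_⟩
  · obtain ⟨O₁, f₁, h1, h2, h3, h4⟩ := h v hv
    exact ((h3.congr h4).1.continuousAt (h1.mem_nhds h2)).continuousWithinAt
  · obtain ⟨O₁, f₁, h1, h2, h3, h4⟩ := h v hv
    exact ((h3.congr h4).2.contDiffAt (h1.mem_nhds h2)).contDiffWithinAt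

/-- `q ∘ f = r ∘ am f` -/
theorem SmOn.contMDiffOn (h : c.SmOn f O) :
    ContMDiffOn 𝓘(ℝ, V) (𝓡 5) ∞ (fun v => c.q (f v)) O :=
  (c.A.r_smooth.comp h.2.contMDiffOn fun v _ => c.am_mem_U f v).congr
    fun _ _ => (c.A.r_ι _).symm

theorem smOn_of_contMDiffOn (h : ContinuousOn f O)
    (h' : ContMDiffOn 𝓘(ℝ, V) (𝓡 5) ∞ (fun v => c.q (f v)) O) : c.SmOn f O :=
  ⟨h, (c.A.ι_smooth.comp_contMDiffOn h').contDiffOn⟩

theorem SmNear.mono (h : c.SmNear f K) (hK : K' ⊆ K) : c.SmNear f K' :=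
  let ⟨O, h1, h2, h3⟩ := h
  ⟨O, h1, hK.trans h2, h3⟩

theorem SmNear.smul (h : c.SmNear f K) (g : c.G) : c.SmNear (fun v => g • f v) K :=
  let ⟨O, h1, h2, h3⟩ := h
  ⟨O, h1, h2, h3.smul g⟩

theorem SmNear.comp (h : c.SmNear f K) {φ : V' → V} {O₁ K₁ : Set V'} (hO : IsOpen O₁)
    (hK : K₁ ⊆ O₁) (hφ : ContDiffOn ℝ ∞ φ O₁) (hm : MapsTo φ K₁ K) :
    c.SmNear (fun v => f (φ v)) K₁ :=
  let ⟨O, h1, h2, h3⟩ := h
  ⟨O₁ ∩ φ ⁻¹' O, hφ.continuousOn.isOpen_inter_preimage hO h1, fun _ hv => ⟨hK hv, h2 (hm hv)⟩,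
    h3.comp (hφ.mono inter_subset_left) fun _ hv => hv.2⟩

theorem SmNear.congr (h : c.SmNear f K) (hf : ∀ᶠ v in 𝓝ˢ K, f' v = f v) : c.SmNear f' K := by
  obtain ⟨O, h1, h2, h3⟩ := h
  obtain ⟨O', h4, h5, h6⟩ := mem_nhdsSet_iff_exists.1 hf
  exact ⟨O ∩ O', h1.inter h4, subset_inter h2 h5,
    (h3.mono inter_subset_left).congr fun _ hv => h6 hv.2⟩

theorem SmNear.continuousOn (h : c.SmNear f K) : ContinuousOn f K :=
  let ⟨_, _, h2, h3⟩ := h
  h3.1.mono h2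

theorem SmNear.continuousAt (h : c.SmNear f K) {v : V} (hv : v ∈ K) : ContinuousAt f v :=
  let ⟨_, h1, h2, h3⟩ := h
  h3.1.continuousAt (h1.mem_nhds (h2 hv))

theorem SmNear.contDiffAt (h : c.SmNear f K) {v : V} (hv : v ∈ K) :
    ContDiffAt ℝ ∞ (c.am f) v :=
  let ⟨_, h1, h2, h3⟩ := h
  h3.2.contDiffAt (h1.mem_nhds (h2 hv))

theorem SmNear.differentiableAt (h : c.SmNear f K) {v : V} (hv : v ∈ K) :
    DifferentiableAt ℝ (c.am f) v :=
  (h.contDiffAt hv).differentiableAt (by simp)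

/-- the derivative of an ambient map is tangent: differentiate `am f = ρ ∘ am f` -/
theorem P_fderiv_am {v : V} (h : DifferentiableAt ℝ (c.am f) v) (u : V) :
    c.P (c.q (f v)) (fderiv ℝ (c.am f) v u) = fderiv ℝ (c.am f) v u := by
  have h1 := fderiv_comp v (c.sm_ρ (c.am_mem_U f v)) h
  have h2 : c.ρ ∘ c.am f = c.am f := funext fun _ => c.ρ_ι _
  rw [h2] at h1
  exact (DFunLike.congr_fun h1 u).symm

theorem SmOn.contDiffOn_P (h : c.SmOn f O) : ContDiffOn ℝ ∞ (fun v => c.P (c.q (f v))) O :=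
  (c.contDiffOn_ρ.fderiv_of_isOpen (m := ∞) c.A.U_open (by simp)).comp h.2
    fun v _ => c.am_mem_U f v

/-- chain rule through the manifold -/
theorem fderiv_am {v : V} (h : DifferentiableAt ℝ (c.am f) v) :
    fderiv ℝ (c.am f) v = (c.dι (c.q (f v))).comp
      (show V →L[ℝ] E 5 from mfderiv 𝓘(ℝ, V) (𝓡 5) (fun v => c.q (f v)) v) := by
  have h1 : MDifferentiableAt 𝓘(ℝ, V) (𝓡 5) (fun v => c.q (f v)) v := by
    have h2 : (fun v => c.q (f v)) = c.r ∘ c.am f := funext fun _ => (c.A.r_ι _).symm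
    rw [h2]
    exact (c.sm_r (c.am_mem_U f v)).comp v h.mdifferentiableAt
  have h3 := mfderiv_comp v (c.sm_ι (c.q (f v))) h1
  rw [mfderiv_eq_fderiv] at h3
  exact h3

/-- orientation of a parametrisation -/
theorem sgn_iff_jac {h : E 5 → c.Y} {v : E 5} (hd : DifferentiableAt ℝ (c.am h) v) {ε : ℤˣ} :
    c.Sgn (c.q (h v)) (fderiv ℝ (c.am h) v) ε ↔ 0 < ((ε : ℤ) : ℝ) * jac (fun w => c.q (h w)) v := by
  rw [fderiv_am hd]
  refine ⟨fun ⟨B, h1, h2⟩ => ?_, fun h1 => ⟨_, rfl, h1⟩⟩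
  have h3 := ContinuousLinearMap.ext fun u => c.dι_inj _ (DFunLike.congr_fun h1 u)
  rw [← h3] at h2
  exact h2

end Ctx

end Pool.Agent.CSP
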